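import Pool.Agent.MP_160dec_gt.Delta

/-! Countable tightness of compact spaces, of their powers, and the splitting lemma. -/

namespace Pool.Agent.MP_160dec_gt

open Set Topology Filter

/-- Countable tightness: a set containing the closures of its countable subsets is closed. -/
def CTight (Z : Type*) [TopologicalSpace Z] : Prop :=
  ∀ A : Set Z, (∀ D ⊆ A, D.Countable → closure D ⊆ A) → IsClosed A

theorem CTight.of_closed_surj {Z W : Type*} [TopologicalSpace Z] [TopologicalSpace W]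
    (hZ : CTight Z) {f : Z → W} (hf : Continuous f) (hc : IsClosedMap f)
    (hs : Function.Surjective f) : CTight W := by
  intro A hA
  have : IsClosed (f ⁻¹' A) := by
    apply hZ
    intro D hD hDc x hx
    have h1 : f x ∈ closure (f '' D) := image_closure_subset_closure_image hf ⟨x, hx, rfl⟩
    exact hA _ (image_subset_iff.2 hD) (hDc.image f) h1
  have h2 := hc _ this
  rwa [image_preimage_eq _ hs] at h2

theorem CTight.prod {X Y : Type*} [TopologicalSpace X] [TopologicalSpace Y] [CompactSpace X]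
    [T2Space X] (hX : CTight X) (hY : CTight Y) : CTight (X × Y) := by
  intro A hA
  rw [← closure_subset_iff_isClosed]
  rintro ⟨x, y⟩ hxy
  have key : ∀ U : Set X, U ∈ 𝓝 x → IsClosed U → ∃ x' ∈ U, (x', y) ∈ A := by
    intro U hU hUc
    have hcl : IsClosed (Prod.snd '' (A ∩ U ×ˢ univ)) := by
      apply hY
      intro D hD hDc
      have : ∀ d : D, ∃ p ∈ A ∩ U ×ˢ univ, p.2 = d.1 := fun d => hD d.2
      choose p hp hp2 using this
      have := hDc.to_subtype
      have hD' : (range p).Countable := countable_range p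
      have hsub : range p ⊆ A ∩ U ×ˢ univ := range_subset_iff.2 hp
      have h1 : closure (range p) ⊆ A ∩ U ×ˢ univ := by
        refine subset_inter (hA _ (hsub.trans inter_subset_left) hD') ?_
        exact closure_minimal (hsub.trans inter_subset_right) (hUc.prod isClosed_univ)
      have h2 : D ⊆ Prod.snd '' range p := by
        intro d hd
        exact ⟨p ⟨d, hd⟩, mem_range_self _, hp2 _⟩
      calc closure D ⊆ closure (Prod.snd '' range p) := closure_mono h2
        _ ⊆ Prod.snd '' closure (range p) :=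
            isClosedMap_snd_of_compactSpace.closure_image_subset _
        _ ⊆ _ := image_mono h1
    have h3 : (x, y) ∈ closure (A ∩ U ×ˢ univ) := by
      rw [mem_closure_iff_nhds] at hxy ⊢
      intro t ht
      have : t ∩ U ×ˢ univ ∈ 𝓝 (x, y) := inter_mem ht (prod_mem_nhds hU univ_mem)
      obtain ⟨q, hq1, hq2⟩ := hxy _ this
      exact ⟨q, hq1.1, hq2, hq1.2⟩
    have h4 : y ∈ closure (Prod.snd '' (A ∩ U ×ˢ univ)) :=
      image_closure_subset_closure_image continuous_snd ⟨(x, y), h3, rfl⟩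
    rw [hcl.closure_eq] at h4
    obtain ⟨⟨x', y'⟩, ⟨h5, h6, -⟩, rfl⟩ := h4
    exact ⟨x', h6, h5⟩
  have hcl : IsClosed {x' | (x', y) ∈ A} := by
    apply hX
    intro D hD hDc z hz
    have hc : Continuous fun x' : X => (x', y) := by fun_prop
    have h1 : (z, y) ∈ closure ((fun x' : X => (x', y)) '' D) :=
      image_closure_subset_closure_image hc ⟨z, hz, rfl⟩
    exact hA _ (image_subset_iff.2 hD) (hDc.image _) h1
  have : x ∈ closure {x' | (x', y) ∈ A} := by
    rw [mem_closure_iff_nhds_basis (closed_nhds_basis x)]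
    intro U hU
    obtain ⟨x', h1, h2⟩ := key U hU.1 hU.2
    exact ⟨x', h2, h1⟩
  rwa [hcl.closure_eq] at this

theorem CTight.pow {X : Type*} [TopologicalSpace X] [CompactSpace X] [T2Space X]
    (hX : CTight X) (n : ℕ) : CTight (Fin n → X) := by
  induction n with
  | zero =>
    intro A _
    exact (toFinite A).isClosed
  | succ n ih =>
    have hc : Continuous fun p : X × (Fin n → X) => (Fin.cons p.1 p.2 : Fin (n + 1) → X) :=
      Continuous.finCons (A := fun _ : Fin (n + 1) => X) continuous_fst continuous_snd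
    refine (hX.prod ih).of_closed_surj hc hc.isClosedMap ?_
    intro z
    exact ⟨(z 0, Fin.tail z), Fin.cons_self_tail z⟩

theorem exists_mem_iInter_of_closure {X : Type*} [TopologicalSpace X] [CompactSpace X]
    {A : Set X} (hA : ∀ D ⊆ A, D.Countable → closure D ⊆ A) {p : X} (hp : p ∈ closure A)
    (H : ℕ → Set X) (hH : ∀ n, IsClosed (H n)) (hH' : ∀ n, H n ∈ 𝓝 p) :
    ∃ x ∈ A, ∀ n, x ∈ H n := by
  have h1 : ∀ n : ℕ, ∃ a ∈ A, ∀ k ≤ n, a ∈ H k := by
    intro n
    have : (⋂ k ∈ Iic n, H k) ∈ 𝓝 p := (biInter_mem (finite_Iic n)).2 fun k _ => hH' k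
    obtain ⟨a, ha1, ha2⟩ := mem_closure_iff_nhds.1 hp _ this
    exact ⟨a, ha2, fun k hk => mem_iInter₂.1 ha1 k hk⟩
  choose a ha ha' using h1
  have hK : ∀ n : ℕ, IsClosed (closure (range a) ∩ ⋂ k ∈ Iic n, H k) := fun n =>
    isClosed_closure.inter (isClosed_biInter fun k _ => hH k)
  obtain ⟨x, hx⟩ := IsCompact.nonempty_iInter_of_sequence_nonempty_isCompact_isClosed
    (fun n : ℕ => closure (range a) ∩ ⋂ k ∈ Iic n, H k)
    (fun n => inter_subset_inter_right _
      (biInter_subset_biInter_left (Iic_subset_Iic.2 (Nat.le_succ n))))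
    (fun n => ⟨a n, subset_closure (mem_range_self n), mem_iInter₂.2 fun k hk => ha' n k hk⟩)
    (hK 0).isCompact hK
  rw [mem_iInter] at hx
  exact ⟨x, hA _ (range_subset_iff.2 ha) (countable_range a) (hx 0).1,
    fun n => mem_iInter₂.1 (hx n).2 n (mem_Iic.2 le_rfl)⟩

/-- A compact Hausdorff space of uncountable tightness has an uncountable discrete family. -/
theorem exists_discrete_of_not_cTight {X : Type*} [TopologicalSpace X] [CompactSpace X]
    [T2Space X] (h : ¬ CTight X) :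
    ∃ (x : Om → X) (O : Om → Set X), ∀ a, IsOpen (O a) ∧ x a ∈ O a ∧ ∀ b, b ≠ a → x b ∉ O a := by
  unfold CTight at h
  push Not at h
  obtain ⟨A, hA, hncl⟩ := h
  rw [← closure_subset_iff_isClosed, not_subset] at hncl
  obtain ⟨p, hp, hpA⟩ := hncl
  have sep : ∀ K : Set X, IsClosed K → K ⊆ A → ∃ H, IsClosed H ∧ H ∈ 𝓝 p ∧ Disjoint H K := by
    intro K hK hKA
    have : Kᶜ ∈ 𝓝 p := hK.isOpen_compl.mem_nhds fun h => hpA (hKA h)
    obtain ⟨H, ⟨h1, h2⟩, h3⟩ := (closed_nhds_basis p).mem_iff.1 this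
    exact ⟨H, h2, h1, subset_compl_iff_disjoint_right.1 h3⟩
  obtain ⟨g, hg⟩ := exists_omega_seq
    (S := {q : X × Set X // q.1 ∈ A ∧ IsClosed q.2 ∧ q.2 ∈ 𝓝 p})
    (fun _ D s => s.1.1 ∉ closure ((fun d => d.1.1) '' D) ∧ (∀ d ∈ D, s.1.1 ∈ d.1.2) ∧
      s.1.1 ∉ s.1.2) (by
      intro _ D hD
      have hsub : (fun d : {q : X × Set X // q.1 ∈ A ∧ IsClosed q.2 ∧ q.2 ∈ 𝓝 p} => d.1.1) '' D
          ⊆ A := by
        rintro _ ⟨d, -, rfl⟩
        exact d.2.1
      obtain ⟨H', h1, h2, h3⟩ := sep _ isClosed_closure (hA _ hsub (hD.image _))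
      obtain ⟨f, hf⟩ := ((hD.image fun d => d.1.2).insert H').exists_eq_range
        (insert_nonempty _ _)
      have hf' : ∀ n, IsClosed (f n) ∧ f n ∈ 𝓝 p := by
        intro n
        have : f n ∈ range f := mem_range_self n
        rw [← hf] at this
        rcases this with h | ⟨d, -, h⟩
        · rw [h]; exact ⟨h1, h2⟩
        · rw [← h]; exact d.2.2
      obtain ⟨x, hxA, hx⟩ := exists_mem_iInter_of_closure hA hp f (fun n => (hf' n).1)
        (fun n => (hf' n).2)
      have hx' : ∀ s ∈ range f, x ∈ s := by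
        rintro _ ⟨n, rfl⟩
        exact hx n
      rw [← hf] at hx'
      obtain ⟨H, k1, k2, k3⟩ := sep {x} isClosed_singleton (singleton_subset_iff.2 hxA)
      refine ⟨⟨(x, H), hxA, k1, k2⟩, ?_, ?_, ?_⟩
      · exact disjoint_left.1 h3 (hx' _ (mem_insert _ _))
      · intro d hd
        exact hx' _ (mem_insert_of_mem _ ⟨d, hd, rfl⟩)
      · exact disjoint_singleton_right.1 k3)
  refine ⟨fun a => (g a).1.1,
    fun a => (closure ((fun d => d.1.1) '' (g '' Iio a)))ᶜ ∩ ((g a).1.2)ᶜ, fun a => ⟨?_, ?_, ?_⟩⟩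
  · exact isClosed_closure.isOpen_compl.inter (g a).2.2.1.isOpen_compl
  · exact ⟨(hg a).1, (hg a).2.2⟩
  · intro b hb hmem
    rcases lt_or_gt_of_ne hb with hlt | hlt
    · exact hmem.1 (subset_closure ⟨g b, ⟨b, hlt, rfl⟩, rfl⟩)
    · exact hmem.2 ((hg b).2.1 (g a) ⟨a, hlt, rfl⟩)

/-- The splitting lemma. For countably many countably tight compact spaces `Z j` and continuous
functions `h j β`, some uncountable `A ⊆ T` contains no uncountable set of the form
`{β ∈ T | 0 < h j β z}`. -/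
theorem exists_uncountable_no_trace {J : Type} [Countable J] [Nonempty J] (Z : J → Type*)
    [∀ j, TopologicalSpace (Z j)] [∀ j, CompactSpace (Z j)] (hZ : ∀ j, CTight (Z j))
    (h : ∀ j, Om → Z j → ℝ) (hc : ∀ j β, Continuous (h j β)) {T : Set Om}
    (hT : ¬ T.Countable) :
    ∃ A ⊆ T, ¬ A.Countable ∧
      ∀ j z, {β | β ∈ T ∧ 0 < h j β z} ⊆ A → {β | β ∈ T ∧ 0 < h j β z}.Countable := by
  classical
  obtain ⟨s, hs⟩ := exists_surj_finset J
  let Sg : ∀ j, Set (Z j) := fun j => {z | {β | β ∈ T ∧ 0 < h j β z}.Countable}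
  have hSg : ∀ j, IsClosed (Sg j) := by
    intro j
    apply hZ j
    intro D hD hDc z hz
    have hC : (⋃ d ∈ D, {β | β ∈ T ∧ 0 < h j β d}).Countable := hDc.biUnion fun d hd => hD hd
    refine hC.mono ?_
    rintro β ⟨hβT, hβ⟩
    have ho : IsOpen {w | 0 < h j β w} := isOpen_lt continuous_const (hc j β)
    obtain ⟨d, hd1, hd2⟩ := mem_closure_iff.1 hz _ ho hβ
    exact mem_biUnion hd2 ⟨hβT, hd1⟩
  let V : ∀ j, Finset (Om × ℕ) → Set (Z j) := fun j G =>
    ⋂ q ∈ G, {z | 1 / ((q.2 : ℝ) + 1) ≤ h j q.1 z}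
  have hV : ∀ j G, IsClosed (V j G) := fun j G =>
    isClosed_biInter fun q _ => isClosed_le continuous_const (hc j q.1)
  have cover : ∀ j z, z ∉ Sg j → ∃ G, z ∈ V j G ∧ Disjoint (V j G) (Sg j) := by
    intro j z hz
    have h1 : ∀ w : Sg j, ∃ q : Om × ℕ, 1 / ((q.2 : ℝ) + 1) ≤ h j q.1 z ∧
        h j q.1 w.1 < 1 / ((q.2 : ℝ) + 1) := by
      intro w
      have : ¬ {β | β ∈ T ∧ 0 < h j β z} ⊆ {β | β ∈ T ∧ 0 < h j β w.1} :=
        fun hsub => hz (Set.Countable.mono hsub w.2)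
      obtain ⟨β, ⟨hβT, hβ⟩, hβ'⟩ := not_subset.1 this
      obtain ⟨m, hm⟩ := exists_nat_one_div_lt hβ
      refine ⟨(β, m), hm.le, ?_⟩
      have h2 : h j β w.1 ≤ 0 := by
        by_contra hcon
        exact hβ' ⟨hβT, not_le.1 hcon⟩
      exact h2.trans_lt Nat.one_div_pos_of_nat
    choose q hq1 hq2 using h1
    obtain ⟨t, ht⟩ := (hSg j).isCompact.elim_finite_subcover
      (fun w : Sg j => {y | h j (q w).1 y < 1 / (((q w).2 : ℝ) + 1)})
      (fun w => isOpen_lt (hc j _) continuous_const)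
      (fun w hw => mem_iUnion.2 ⟨⟨w, hw⟩, hq2 ⟨w, hw⟩⟩)
    refine ⟨t.image q, ?_, ?_⟩
    · refine mem_iInter₂.2 fun r hr => ?_
      obtain ⟨w, -, rfl⟩ := Finset.mem_image.1 hr
      exact hq1 w
    · rw [disjoint_left]
      intro y hy hyS
      obtain ⟨w, hw, hy'⟩ := mem_iUnion₂.1 (ht hyS)
      have h5 : 1 / (((q w).2 : ℝ) + 1) ≤ h j (q w).1 y :=
        mem_iInter₂.1 hy (q w) (Finset.mem_image_of_mem q hw)
      have h6 : h j (q w).1 y < 1 / (((q w).2 : ℝ) + 1) := hy'
      exact absurd h5 (not_le.2 h6)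
  obtain ⟨A, hAT, hA, hP⟩ := exists_uncountable_avoiding hT
    (fun a F => Disjoint (V (s a).1 (s a).2) (Sg (s a).1) →
      ∀ z ∈ V (s a).1 (s a).2, ∃ β ∈ F, β ∈ T ∧ 0 < h (s a).1 β z) (by
      intro a C hC
      by_cases hd : Disjoint (V (s a).1 (s a).2) (Sg (s a).1)
      · obtain ⟨t, ht⟩ := (hV (s a).1 (s a).2).isCompact.elim_finite_subcover
          (fun β : ↥(T \ C) => {y | 0 < h (s a).1 β.1 y})
          (fun β => isOpen_lt continuous_const (hc _ _)) (by
            intro z hz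
            have hz' : z ∉ Sg (s a).1 := disjoint_left.1 hd hz
            have : ¬ {β | β ∈ T ∧ 0 < h (s a).1 β z} ⊆ C :=
              fun hsub => hz' (Set.Countable.mono hsub hC)
            obtain ⟨β, ⟨hβT, hβ⟩, hβ'⟩ := not_subset.1 this
            exact mem_iUnion.2 ⟨⟨β, hβT, hβ'⟩, hβ⟩)
        refine ⟨Subtype.val '' (t : Set ↥(T \ C)), t.countable_toSet.image _, ?_, ?_⟩
        · rw [disjoint_left]
          rintro _ ⟨β, -, rfl⟩
          exact β.2.2
        · intro _ z hz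
          obtain ⟨β, hβ, hz'⟩ := mem_iUnion₂.1 (ht hz)
          exact ⟨β.1, ⟨β, hβ, rfl⟩, β.2.1, hz'⟩
      · exact ⟨∅, countable_empty, empty_disjoint _, fun h' => absurd h' hd⟩)
  refine ⟨A, hAT, hA, ?_⟩
  intro j z hsub
  by_contra hz
  obtain ⟨G, hG1, hG2⟩ := cover j z hz
  obtain ⟨a, ha⟩ := hs (j, G)
  obtain ⟨F, hF1, hF2⟩ := hP a
  rw [ha] at hF1
  obtain ⟨β, hβF, hβ⟩ := hF1 hG2 z hG1
  exact disjoint_left.1 hF2 hβF (hsub hβ)

end Pool.Agent.MP_160dec_gt
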