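import Pool.Agent.MP_160dec_gt.Defs
import Pool.Agent.MP_160dec_gt.Tight

/-! The core argument: a countably tight compact space that is t-embedded in a power of the real
line is metrizable. -/

namespace Pool.Agent.MP_160dec_gt

open Set Topology Filter

theorem pi_nhds {κ : Type*} {p : κ → ℝ} {W : Set (κ → ℝ)} (hW : W ∈ 𝓝 p) :
    ∃ (B : Finset κ) (δ : ℝ), 0 < δ ∧ ∀ y : κ → ℝ, (∀ k ∈ B, |y k - p k| < δ) → y ∈ W := by
  rw [nhds_pi, mem_pi'] at hW
  obtain ⟨I, t, ht, hsub⟩ := hW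
  have h1 : ∀ᶠ r in 𝓝 (0 : ℝ), ∀ k ∈ I, Metric.closedBall (p k) r ⊆ t k :=
    (eventually_all_finset I).2 fun k _ => eventually_closedBall_subset (ht k)
  have h2 : ∀ᶠ r in 𝓝[>] (0 : ℝ), ∀ k ∈ I, Metric.closedBall (p k) r ⊆ t k :=
    h1.filter_mono nhdsWithin_le_nhds
  obtain ⟨δ, hδ, hδ0⟩ := (h2.and self_mem_nhdsWithin).exists
  refine ⟨I, δ, hδ0, fun y hy => hsub fun k hk => hδ k hk ?_⟩
  rw [Metric.mem_closedBall, Real.dist_eq]
  exact (hy k hk).le

theorem cp_nhds {X : Type*} [TopologicalSpace X] {f : Cp X} {W : Set (Cp X)} (hW : W ∈ 𝓝 f) :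
    ∃ (B : Finset X) (δ : ℝ), 0 < δ ∧ ∀ g : Cp X, (∀ x ∈ B, |g.1 x - f.1 x| < δ) → g ∈ W := by
  rw [nhds_subtype, mem_comap] at hW
  obtain ⟨V, hV, hsub⟩ := hW
  obtain ⟨B, δ, hδ, h⟩ := pi_nhds hV
  exact ⟨B, δ, hδ, fun g hg => hsub (h g.1 hg)⟩

theorem refine_delta {ι κ : Type*} [DecidableEq κ] {S : Set ι} (hS : ¬ S.Countable)
    (B : ι → Finset κ) (δ : ι → ℝ) (hδ : ∀ i ∈ S, 0 < δ i) (q : ι → κ → ℝ) :
    ∃ T ⊆ S, ¬ T.Countable ∧ ∃ R : Finset κ, (∀ i ∈ T, R ⊆ B i) ∧
      T.Pairwise (fun i j => Disjoint (B i \ R) (B j \ R)) ∧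
      ∃ (n : ℕ) (x : Fin n → κ) (k m : ℕ), (∀ a ∈ R, a ∈ range x) ∧ (∀ l, x l ∈ R) ∧
        ∀ i ∈ T, 2 * (1 / ((m : ℝ) + 1)) ≤ δ i ∧
          dist (fun l => q i (x l)) (TopologicalSpace.denseSeq (Fin n → ℝ) k) <
            1 / ((m : ℝ) + 1) := by
  obtain ⟨S', hS'S, hS', R, hR, hP⟩ := delta_system hS B
  let x : Fin R.card → κ := fun l => (R.equivFin.symm l).1
  obtain ⟨⟨k, m⟩, hkm⟩ := exists_uncountable_fiber hS' (fun (b : ℕ × ℕ) i =>
    2 * (1 / ((b.2 : ℝ) + 1)) ≤ δ i ∧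
      dist (fun l => q i (x l)) (TopologicalSpace.denseSeq (Fin R.card → ℝ) b.1) <
        1 / ((b.2 : ℝ) + 1)) (by
    intro i hi
    obtain ⟨m, hm⟩ := exists_nat_one_div_lt (half_pos (hδ i (hS'S hi)))
    obtain ⟨k, hk⟩ := (TopologicalSpace.denseRange_denseSeq (Fin R.card → ℝ)).exists_dist_lt
      (fun l => q i (x l)) (Nat.one_div_pos_of_nat (n := m))
    exact ⟨(k, m), by linarith, hk⟩)
  refine ⟨_, fun i hi => hS'S hi.1, hkm, R, fun i hi => hR i hi.1,
    hP.mono fun i hi => hi.1, R.card, x, k, m, ?_, fun l => (R.equivFin.symm l).2,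
    fun i hi => hi.2⟩
  intro a ha
  exact ⟨R.equivFin ⟨a, ha⟩, by simp [x]⟩

theorem close_on_root {κ : Type*} {n : ℕ} {x : Fin n → κ} {u v : κ → ℝ} {w : Fin n → ℝ}
    {ε : ℝ} (hu : dist (fun l => u (x l)) w < ε) (hv : dist (fun l => v (x l)) w < ε)
    {a : κ} (ha : a ∈ range x) : |u a - v a| < 2 * ε := by
  obtain ⟨l, rfl⟩ := ha
  have h1 := (dist_le_pi_dist (fun l => u (x l)) w l).trans_lt hu
  have h2 := (dist_le_pi_dist (fun l => v (x l)) w l).trans_lt hv
  rw [Real.dist_eq] at h1 h2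
  rw [abs_lt] at h1 h2 ⊢
  constructor <;> linarith [h1.1, h1.2, h2.1, h2.2]

theorem glue {ι κ : Type*} [DecidableEq κ] {T : Set ι} {B : ι → Finset κ} {R : Finset κ}
    (hP : T.Pairwise (fun i j => Disjoint (B i \ R) (B j \ R))) (r : κ → ℝ) (p : ι → κ → ℝ) :
    ∃ y : κ → ℝ, (∀ k ∈ R, y k = r k) ∧ ∀ i ∈ T, ∀ k ∈ B i \ R, y k = p i k := by
  classical
  refine ⟨fun k => if h : ∃ i ∈ T, k ∈ B i \ R then p h.choose k else r k, ?_, ?_⟩
  · intro k hk
    refine dif_neg ?_
    rintro ⟨i, -, hi⟩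
    exact (Finset.mem_sdiff.1 hi).2 hk
  · intro i hi k hk
    have h : ∃ i ∈ T, k ∈ B i \ R := ⟨i, hi, hk⟩
    simp only [dif_pos h]
    have : h.choose = i := by
      by_contra hne
      exact Finset.disjoint_left.1 (hP h.choose_spec.1 hi hne) h.choose_spec.2 hk
    rw [this]

theorem interp {X : Type*} [TopologicalSpace X] [CompactSpace X] [T2Space X] {G : Set X}
    (hG : G.Finite) (u : X → ℝ) : ∃ g : Cp X, ∀ x ∈ G, g.1 x = u x := by
  have := hG.to_subtype
  obtain ⟨g, hg⟩ := ContinuousMap.exists_restrict_eq (Y := ℝ) hG.isClosed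
    ⟨fun x : G => u x.1, continuous_of_discreteTopology⟩
  refine ⟨⟨g, g.continuous⟩, fun x hx => ?_⟩
  exact DFunLike.congr_fun hg ⟨x, hx⟩

theorem nonempty_of_not_countable {ι : Type*} {T : Set ι} (hT : ¬ T.Countable) : T.Nonempty := by
  by_contra h
  rw [not_nonempty_iff_eq_empty] at h
  exact hT (h ▸ countable_empty)

/-- Uncountably many nonempty open subsets of a power of the line: some point lies in
uncountably many of them. -/
theorem caliber {κ : Type*} (p : Om → κ → ℝ) (W : Om → Set (κ → ℝ)) (hW : ∀ a, W a ∈ 𝓝 (p a)) :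
    ∃ y, ¬ {a | y ∈ W a}.Countable := by
  classical
  choose B δ hδ hB using fun a => pi_nhds (hW a)
  obtain ⟨T, -, hT, R, -, hP, n, x, k, m, hx, -, hq⟩ :=
    refine_delta Om.uncountable_univ B δ (fun a _ => hδ a) p
  obtain ⟨a₀, ha₀⟩ := nonempty_of_not_countable hT
  obtain ⟨y, hy1, hy2⟩ := glue hP (p a₀) p
  refine ⟨y, fun hc => hT (hc.mono fun a ha => hB a y fun c hc => ?_)⟩
  by_cases hcR : c ∈ R
  · rw [hy1 c hcR]
    exact (close_on_root (hq a₀ ha₀).2 (hq a ha).2 (hx c hcR)).trans_le (hq a ha).1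
  · rw [hy2 a ha c (Finset.mem_sdiff.2 ⟨hc, hcR⟩)]
    simpa using hδ a

theorem continuous_eval_cp {X : Type*} [TopologicalSpace X] (x : X) :
    Continuous fun f : Cp X => f.1 x :=
  (continuous_apply x).comp continuous_subtype_val

/-- If every closed subspace is t-embedded in a power of the line, the compact space has
countable tightness. -/
theorem cTight_of_hereditary {X κ : Type*} [TopologicalSpace X] [CompactSpace X] [T2Space X]
    {e : X → κ → ℝ} (he : IsTEmbedded e) (hX : TExtendial X) : CTight X := by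
  classical
  by_contra hcon
  obtain ⟨x, O, hO⟩ := exists_discrete_of_not_cTight hcon
  obtain ⟨φ, hφ, hφe⟩ := he
  obtain ⟨ψ, hψ, hψe⟩ := hX (closure (range x)) isClosed_closure
  have hinj : Function.Injective x := by
    intro a b hab
    by_contra hne
    exact (hO b).2.2 a hne (hab ▸ (hO b).2.1)
  have hiso : ∀ a, ∀ z ∈ closure (range x), z ∈ O a → z = x a := by
    intro a z hz hzO
    have h1 : z ∈ closure (O a ∩ range x) := (hO a).1.inter_closure ⟨hzO, hz⟩
    have h2 : O a ∩ range x ⊆ {x a} := by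
      rintro _ ⟨h, b, rfl⟩
      by_cases hb : b = a
      · rw [hb]; rfl
      · exact absurd h ((hO a).2.2 b hb)
    have := closure_mono h2 h1
    rwa [closure_singleton] at this
  have hclopen : ∀ a, IsClopen {z : closure (range x) | z.1 = x a} := by
    intro a
    refine ⟨isClosed_eq continuous_subtype_val continuous_const, ?_⟩
    have : {z : closure (range x) | z.1 = x a} = Subtype.val ⁻¹' O a := by
      ext z
      constructor
      · intro hz
        have hz' : z.1 = x a := hz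
        rw [mem_preimage, hz']
        exact (hO a).2.1
      · intro hz
        exact hiso a z.1 z.2 hz
    rw [this]
    exact (hO a).1.preimage continuous_subtype_val
  let ind : Om → Cp (closure (range x)) := fun a =>
    ⟨{z : closure (range x) | z.1 = x a}.indicator fun _ => (1 : ℝ),
      (hclopen a).continuous_indicator continuous_const⟩
  let zero : Cp (closure (range x)) := ⟨fun _ => 0, continuous_const⟩
  have htend : Tendsto ind cofinite (𝓝 zero) := by
    rw [tendsto_subtype_rng, tendsto_pi_nhds]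
    intro z
    refine tendsto_const_nhds.congr' ?_
    have hfin : {a | z.1 = x a}.Finite := by
      apply Set.Subsingleton.finite
      intro a ha b hb
      exact hinj (ha.symm.trans hb)
    filter_upwards [hfin.compl_mem_cofinite] with a ha
    exact (indicator_of_notMem (s := {z : closure (range x) | z.1 = x a}) ha
      (fun _ => (1 : ℝ))).symm
  obtain ⟨y, hy⟩ := caliber (fun a => e (x a))
    (fun a => {y | 1 / 2 < (φ (ψ (ind a))).1 y - (φ (ψ zero)).1 y}) (by
      intro a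
      refine (isOpen_lt continuous_const
        ((φ (ψ (ind a))).2.sub (φ (ψ zero)).2)).mem_nhds ?_
      have hm : x a ∈ closure (range x) := subset_closure (mem_range_self a)
      have h1 := hψe (ind a) ⟨x a, hm⟩
      have h2 := hψe zero ⟨x a, hm⟩
      change 1 / 2 < (φ (ψ (ind a))).1 (e (x a)) - (φ (ψ zero)).1 (e (x a))
      simp only at h1 h2
      rw [hφe, hφe, h1, h2]
      simp only [ind, zero]
      rw [indicator_of_mem (by rfl)]
      norm_num)
  apply hy
  apply Set.Finite.countable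
  have h1 : Tendsto (fun a => (φ (ψ (ind a))).1 y) cofinite (𝓝 ((φ (ψ zero)).1 y)) :=
    (((continuous_eval_cp y).comp (hφ.comp hψ)).tendsto zero).comp htend
  have h2 : ∀ᶠ a in cofinite, (φ (ψ (ind a))).1 y < (φ (ψ zero)).1 y + 1 / 2 :=
    h1.eventually (gt_mem_nhds (by linarith))
  refine (eventually_cofinite.1 h2).subset fun a ha => ?_
  simp only [mem_ofPred_eq, not_lt] at ha ⊢
  linarith

/-- From non-metrizability: an uncountable family of functions every subfamily of which is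
separated from its complement by a continuous function on `Cp X`. -/
theorem exists_separated_family {X κ : Type*} [TopologicalSpace X] [CompactSpace X] [T2Space X]
    {e : X → κ → ℝ} (hec : Continuous e) (he : IsTEmbedded e)
    (hX : ¬ TopologicalSpace.MetrizableSpace X) :
    ∃ (f : Om → Cp X) (T : Set Om), ¬ T.Countable ∧ ∀ A : Set Om,
      ∃ Ψ : Cp X → ℝ, Continuous Ψ ∧ ∀ a ∈ T, (a ∈ A → 2 / 3 < Ψ (f a)) ∧
        (a ∉ A → Ψ (f a) < 1 / 3) := by
  classical
  obtain ⟨φ, hφ, hφe⟩ := he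
  have hsep : ∀ D : Set κ, D.Countable → ∃ x y : X, x ≠ y ∧ ∀ k ∈ D, e x k = e y k := by
    intro D hD
    by_contra hcon
    push Not at hcon
    apply hX
    have := hD.to_subtype
    have hc : Continuous fun (x : X) (k : D) => e x k.1 :=
      continuous_pi fun k => (continuous_apply k.1).comp hec
    have hi : Function.Injective fun (x : X) (k : D) => e x k.1 := by
      intro x y hxy
      by_contra hne
      obtain ⟨k, hk, hk'⟩ := hcon x y hne
      exact hk' (congrFun hxy ⟨k, hk⟩)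
    exact (hc.isClosedEmbedding hi).isEmbedding.metrizableSpace
  obtain ⟨g, hg⟩ := exists_omega_seq (S := X × X × Cp X × Finset κ × ℝ)
    (fun _ D s => (∀ d ∈ D, ∀ k ∈ d.2.2.2.1, e s.1 k = e s.2.1 k) ∧ 0 < s.2.2.2.2 ∧
      (∀ y : κ → ℝ, (∀ k ∈ s.2.2.2.1, |y k - e s.1 k| < s.2.2.2.2) → (φ s.2.2.1).1 y < 1 / 3) ∧
      (∀ y : κ → ℝ, (∀ k ∈ s.2.2.2.1, |y k - e s.2.1 k| < s.2.2.2.2) →
        2 / 3 < (φ s.2.2.1).1 y)) (by
      intro _ D hD
      obtain ⟨x, y, hxy, h⟩ := hsep (⋃ d ∈ D, (d.2.2.2.1 : Set κ))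
        (hD.biUnion fun d _ => d.2.2.2.1.countable_toSet)
      obtain ⟨f, hf⟩ := interp (toFinite {x, y}) (fun z => if z = x then (0 : ℝ) else 1)
      have hfx : f.1 x = 0 := by rw [hf x (by simp)]; simp
      have hfy : f.1 y = 1 := by rw [hf y (by simp)]; simp [hxy.symm]
      obtain ⟨B₁, δ₁, h₁, h₁'⟩ := pi_nhds (p := e x) (W := {z | (φ f).1 z < 1 / 3})
        ((isOpen_lt (φ f).2 continuous_const).mem_nhds (by
          simp only [mem_ofPred_eq, hφe, hfx]; norm_num))
      obtain ⟨B₂, δ₂, h₂, h₂'⟩ := pi_nhds (p := e y) (W := {z | 2 / 3 < (φ f).1 z})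
        ((isOpen_lt continuous_const (φ f).2).mem_nhds (by
          simp only [mem_ofPred_eq, hφe, hfy]; norm_num))
      refine ⟨(x, y, f, B₁ ∪ B₂, min δ₁ δ₂), ?_, lt_min h₁ h₂, ?_, ?_⟩
      · intro d hd k hk
        exact h k (mem_biUnion hd hk)
      · intro z hz
        exact h₁' z fun k hk => (hz k (Finset.mem_union_left _ hk)).trans_le (min_le_left _ _)
      · intro z hz
        exact h₂' z fun k hk => (hz k (Finset.mem_union_right _ hk)).trans_le (min_le_right _ _))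
  obtain ⟨T, -, hT, R, hR, hP, n, x, k, m, hx, -, hq⟩ :=
    refine_delta Om.uncountable_univ (fun a => (g a).2.2.2.1) (fun a => (g a).2.2.2.2)
      (fun a _ => (hg a).2.1) (fun a => e (g a).1)
  obtain ⟨a₀, ha₀⟩ := nonempty_of_not_countable hT
  refine ⟨fun a => (g a).2.2.1, T \ Iic a₀, ?_, fun A => ?_⟩
  · intro hc
    apply hT
    refine (hc.union (Om.countable_Iic a₀)).mono ?_
    rw [diff_union_self]
    exact subset_union_left
  obtain ⟨y, hy1, hy2⟩ := glue hP (e (g a₀).1)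
    (fun a => if a ∈ A then e (g a).2.1 else e (g a).1)
  refine ⟨fun f => (φ f).1 y, (continuous_eval_cp y).comp hφ, ?_⟩
  rintro a ⟨ha, hlt⟩
  have hlt' : a₀ < a := not_le.1 hlt
  have hroot : ∀ c ∈ R, |y c - e (g a).1 c| < (g a).2.2.2.2 := by
    intro c hc
    rw [hy1 c hc]
    exact (close_on_root (hq a₀ ha₀).2 (hq a ha).2 (hx c hc)).trans_le (hq a ha).1
  constructor
  · intro haA
    refine (hg a).2.2.2 y fun c hc => ?_
    by_cases hcR : c ∈ R
    · rw [← (hg a).1 (g a₀) ⟨a₀, hlt', rfl⟩ c (hR a₀ ha₀ hcR)]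
      exact hroot c hcR
    · rw [hy2 a ha c (Finset.mem_sdiff.2 ⟨hc, hcR⟩), if_pos haA]
      simpa using (hg a).2.1
  · intro haA
    refine (hg a).2.2.1 y fun c hc => ?_
    by_cases hcR : c ∈ R
    · exact hroot c hcR
    · rw [hy2 a ha c (Finset.mem_sdiff.2 ⟨hc, hcR⟩), if_neg haA]
      simpa using (hg a).2.1

/-- Core theorem: a countably tight compact space t-embedded in a power of the line is
metrizable. -/
theorem metrizable_of_cTight {X κ : Type*} [TopologicalSpace X] [CompactSpace X] [T2Space X]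
    {e : X → κ → ℝ} (hec : Continuous e) (he : IsTEmbedded e)
    (hT : CTight X) : TopologicalSpace.MetrizableSpace X := by
  classical
  by_contra hX
  obtain ⟨f, T, hTc, hsep⟩ := exists_separated_family hec he hX
  obtain ⟨A, hAT, hA, hno⟩ := exists_uncountable_no_trace (J := ℕ × ℕ × ℕ)
    (fun j => Fin j.1 → X) (fun j => hT.pow j.1)
    (fun j β z => 1 / ((j.2.2 : ℝ) + 1) -
      dist (fun l => (f β).1 (z l)) (TopologicalSpace.denseSeq (Fin j.1 → ℝ) j.2.1))
    (fun j β => continuous_const.sub (Continuous.dist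
      (continuous_pi fun l => (f β).2.comp (continuous_apply l)) continuous_const)) hTc
  obtain ⟨Ψ, hΨ, hΨA⟩ := hsep A
  have h1 : ∀ a, ∃ (B : Finset X) (δ : ℝ), 0 < δ ∧ (a ∈ A → ∀ g : Cp X,
      (∀ x ∈ B, |g.1 x - (f a).1 x| < δ) → 2 / 3 < Ψ g) := by
    intro a
    by_cases ha : a ∈ A
    · obtain ⟨B, δ, hδ, h⟩ := cp_nhds (f := f a) (W := {g | 2 / 3 < Ψ g})
        ((isOpen_lt continuous_const hΨ).mem_nhds ((hΨA a (hAT ha)).1 ha))
      exact ⟨B, δ, hδ, fun _ => h⟩
    · exact ⟨∅, 1, one_pos, fun h => absurd h ha⟩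
  choose B δ hδ hB using h1
  obtain ⟨A', hA'A, hA', R, -, hP, n, x, k, m, hx, -, hq⟩ :=
    refine_delta hA B δ (fun a _ => hδ a) (fun a => (f a).1)
  have hcount := hno (n, k, m) x (by
    rintro β ⟨hβT, hβ⟩
    by_contra hβA
    obtain ⟨G, η, hη, hG⟩ := cp_nhds (f := f β) (W := {g | Ψ g < 1 / 3})
      ((isOpen_lt hΨ continuous_const).mem_nhds ((hΨA β hβT).2 hβA))
    obtain ⟨a, ha, hdis⟩ : ∃ a ∈ A', Disjoint (B a \ R) G := by
      by_contra hcon
      push Not at hcon
      apply hA'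
      have hsub : A' ⊆ ⋃ c ∈ (G : Set X), {a | a ∈ A' ∧ c ∈ B a \ R} := by
        intro a ha
        obtain ⟨c, hc1, hc2⟩ := Finset.not_disjoint_iff.1 (hcon a ha)
        exact mem_biUnion hc2 ⟨ha, hc1⟩
      refine Set.Countable.mono hsub (G.countable_toSet.biUnion fun c _ => ?_)
      apply Set.Subsingleton.countable
      intro a ha b hb
      by_contra hne
      exact Finset.disjoint_left.1 (hP ha.1 hb.1 hne) ha.2 hb.2
    obtain ⟨g, hg⟩ := interp ((G ∪ B a).finite_toSet)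
      (fun z => if z ∈ B a \ R then (f a).1 z else (f β).1 z)
    have k1 : Ψ g < 1 / 3 := by
      refine hG g fun z hz => ?_
      rw [hg z (by simp [hz]), if_neg (Finset.disjoint_right.1 hdis hz)]
      simpa using hη
    have k2 : 2 / 3 < Ψ g := by
      refine hB a (hA'A ha) g fun z hz => ?_
      rw [hg z (by simp [hz])]
      by_cases hzR : z ∈ R
      · rw [if_neg (fun h => (Finset.mem_sdiff.1 h).2 hzR)]
        exact (close_on_root (sub_pos.1 hβ) (hq a ha).2 (hx z hzR)).trans_le (hq a ha).1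
      · rw [if_pos (Finset.mem_sdiff.2 ⟨hz, hzR⟩)]
        simpa using hδ a
    linarith)
  refine hA' (Set.Countable.mono ?_ hcount)
  intro a ha
  exact ⟨hAT (hA'A ha), sub_pos.2 (hq a ha).2⟩

end Pool.Agent.MP_160dec_gt
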