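import Pool.Agent.Mg.F160dec.G4aa943

/-! t-extral spaces map onto Tychonoff cubes. -/

namespace Pool.Agent.MP_160dec_gt.Cube

open Cardinal Set TopologicalSpace

universe u

/-- Pigeonhole for countably many colours. -/
theorem pig {lam : Cardinal.{u}} {J : Type u} {β : Type*} [Countable β] {S : Set J}
    (hc : ℵ₀ < lam.ord.cof) (hS : lam ≤ Cardinal.mk S) (c : J → β) :
    ∃ (b : β) (T : Set J), T ⊆ S ∧ lam ≤ Cardinal.mk T ∧ ∀ i ∈ T, c i = b := by
  obtain ⟨e, he⟩ := Countable.exists_injective_nat β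
  have h0 : ℵ₀ ≤ lam := hc.le.trans (Ordinal.cof_ord_le lam)
  obtain ⟨a, T, hT, h1, h2⟩ := Cardinal.infinite_pigeonhole_set
    (fun i : S => (ULift.up (e (c i.1)) : ULift.{u} ℕ)) lam hS h0 (by simpa using hc)
  have hne : T.Nonempty := by
    rw [← Set.nonempty_coe_sort, ← Cardinal.mk_ne_zero_iff]
    exact (Cardinal.aleph0_pos.trans_le (h0.trans h1)).ne'
  obtain ⟨i₀, hi₀⟩ := hne
  refine ⟨c i₀, T, hT, h1, fun i hi => he ?_⟩
  exact congrArg ULift.down ((h2 hi).trans (h2 hi₀).symm)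

/-- Every finite pattern on `S` is realised by the pairs `E i false, E i true`. -/
def Ind {J Ω : Type u} (E : J → Bool → Set Ω) (S : Set J) : Prop :=
  ∀ (G : Finset J) (σ : J → Bool), (G : Set J) ⊆ S → ∃ ω, ∀ i ∈ G, ω ∈ E i (σ i)

/-- Delta-system lemma for a regular uncountable cardinal. -/
def Dlt : Prop := ∀ (lam : Cardinal.{u}) (J α : Type u) (S : Set J) (B : J → Finset α),
  lam.IsRegular → ℵ₀ < lam → lam ≤ Cardinal.mk S →
  ∃ T ⊆ S, lam ≤ Cardinal.mk T ∧ ∃ R : Finset α, (∀ i ∈ T, R ⊆ B i) ∧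
    ∀ i ∈ T, ∀ j ∈ T, i ≠ j → ∀ a ∈ B i, a ∈ B j → a ∈ R

/-- Many compatible finite conditions, regular case, with the root. -/
def CalR : Prop := ∀ (lam : Cardinal.{u}) (J α : Type u) (S : Set J) (B : J → Finset α)
  (p : J → α → ℕ), lam.IsRegular → ℵ₀ < lam → lam ≤ Cardinal.mk S →
  ∃ T ⊆ S, lam ≤ Cardinal.mk T ∧ ∃ (R : Finset α) (r : α → ℕ),
    (∀ i ∈ T, R ⊆ B i ∧ ∀ a ∈ R, p i a = r a) ∧
    ∀ i ∈ T, ∀ j ∈ T, i ≠ j → ∀ a ∈ B i, a ∈ B j → a ∈ R

/-- A singular cardinal is the supremum of a short family of small cardinals, unbounded on every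
large set of indices. -/
def Cof : Prop := ∀ lam : Cardinal.{u}, ℵ₀ ≤ lam → ¬ lam.IsRegular →
  ∃ (M : Type u) (θ : M → Cardinal.{u}), Cardinal.mk M = lam.ord.cof ∧
    (∀ m, (θ m).IsRegular ∧ lam.ord.cof < θ m ∧ θ m < lam) ∧ Function.Injective θ ∧
    ∀ ν < lam, Cardinal.mk {m | θ m ≤ ν} < lam.ord.cof

/-- Many compatible finite conditions (Shanin). -/
def Cal : Prop := ∀ (lam : Cardinal.{u}) (J α : Type u) (S : Set J) (B : J → Finset α)
  (p : J → α → ℕ), ℵ₀ < lam.ord.cof → lam ≤ Cardinal.mk S →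
  ∃ T ⊆ S, lam ≤ Cardinal.mk T ∧ ∀ i ∈ T, ∀ j ∈ T, ∀ a ∈ B i, a ∈ B j → p i a = p j a

/-- Compatible conditions on a free set. -/
def Fre : Prop := ∀ (lam : Cardinal.{u}) (J α : Type u) (S : Set J) (B : J → Finset α)
  (p : J → α → ℕ) (F : J → Finset J), ℵ₀ < lam.ord.cof → lam ≤ Cardinal.mk S →
  (∀ i ∈ S, i ∉ F i) →
  ∃ T ⊆ S, lam ≤ Cardinal.mk T ∧ (∀ i ∈ T, ∀ j ∈ T, ∀ a ∈ B i, a ∈ B j → p i a = p j a) ∧
    ∀ i ∈ T, ∀ j ∈ T, i ∉ F j

/-- Splitting one side of an independent family. -/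
def Tal1 : Prop := ∀ (lam : Cardinal.{u}) (J Ω : Type u) (S : Set J) (E : J → Bool → Set Ω)
  (H : J → Set Ω) (b : Bool), ℵ₀ < lam.ord.cof → lam ≤ Cardinal.mk S → Ind E S →
  ∃ T ⊆ S, lam ≤ Cardinal.mk T ∧
    (Ind (fun i c => {ω | ω ∈ E i c ∧ (c = b → ω ∈ H i)}) T ∨
      Ind (fun i c => {ω | ω ∈ E i c ∧ (c = b → ω ∉ H i)}) T)

/-- Fixing finitely many labels on both sides of an independent family. -/
def Tal : Prop := ∀ (lam : Cardinal.{u}) (J Ω : Type u) (S : Set J) (E : J → Bool → Set Ω)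
  (γ : Type) (c : J → Ω → γ), Finite γ → ℵ₀ < lam.ord.cof → lam ≤ Cardinal.mk S → Ind E S →
  ∃ T ⊆ S, lam ≤ Cardinal.mk T ∧ ∃ d : Bool → γ,
    Ind (fun i b => {ω | ω ∈ E i b ∧ c i ω = d b}) T

/-- Bounded kernels for small transversals. -/
def Ker : Prop := ∀ n M : ℕ, ∃ N : ℕ, ∀ (P : Type u) (A : Set (Finset P)),
  (∀ L ∈ A, L.card ≤ M) → ∃ R : Finset P, R.card ≤ N ∧ ∀ K : Finset P, K.card ≤ n →
    (∀ L ∈ A, ∃ z ∈ K, z ∈ L) → ∀ L ∈ A, ∃ z ∈ K, z ∈ L ∧ z ∈ R

/-- One tuple of bounded length separates the two sides of a pattern. -/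
def Tup : Prop := ∀ j : ℕ, ∃ N : ℕ, ∀ (X J : Type u) (f : J → X → ℝ) (σ : J → Bool) (G : Set J)
  (x : J → Fin j → X), Nonempty X → (∀ i z, f i z ∈ Icc (0 : ℝ) 1) →
  (∀ a ∈ G, ∀ b ∈ G, σ a = true → σ b = false →
    ∃ l l', x a l = x b l' ∧ 2 / ((j : ℝ) + 1) ≤ |f a (x a l) - f b (x a l)|) →
  ∃ w : Fin N → X, ∀ a ∈ G, ∀ b ∈ G, σ a = true → σ b = false →
    ∃ l, 1 / ((j : ℝ) + 1) ≤ |f a (w l) - f b (w l)|

/-- The pair of level sets of `f i`. -/
def Lev {J X : Type u} (f : J → X → ℝ) (r s : ℝ) (i : J) (b : Bool) : Set X :=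
  {z | (b = true → s ≤ f i z) ∧ (b = false → f i z ≤ r)}

/-- From separating tuples to independent level sets. -/
def Sep : Prop := ∀ (lam : Cardinal.{u}) (J X : Type u) (S : Set J) (f : J → X → ℝ) (N : ℕ)
  (ε : ℝ), ℵ₀ < lam.ord.cof → lam ≤ Cardinal.mk S → 0 < ε → (∀ i z, f i z ∈ Icc (0 : ℝ) 1) →
  (∀ (G : Finset J) (σ : J → Bool), (G : Set J) ⊆ S → ∃ w : Fin N → X, ∀ a ∈ G, ∀ b ∈ G,
    σ a = true → σ b = false → ∃ l, ε ≤ |f a (w l) - f b (w l)|) →
  ∃ T ⊆ S, lam ≤ Cardinal.mk T ∧ ∃ r s : ℝ, r < s ∧ Ind (Lev f r s) T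

/-- Independent level sets give a map onto a cube. -/
def Onto : Prop := ∀ (X J ι : Type u) [TopologicalSpace X] [CompactSpace X] (f : J → X → ℝ)
  (T : Set J) (r s : ℝ), Infinite ι → Cardinal.mk ι ≤ Cardinal.mk T → r < s →
  (∀ i, Continuous (f i)) → Ind (Lev f r s) T →
  ∃ g : X → ι → unitInterval, Continuous g ∧ Function.Surjective g

/-- The tuple `x` controls the side of `φ g y` for `g` near `f`. -/
def Wit {X Y : Type u} [TopologicalSpace X] [TopologicalSpace Y] (φ : Cp X → Cp Y) (f : Cp X)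
    (j : ℕ) (b : Bool) (y : Y) (x : Fin j → X) : Prop :=
  ∀ g : Cp X, (∀ l, |g.1 (x l) - f.1 (x l)| < 1 / ((j : ℝ) + 1)) →
    (b = true → 2 / 3 ≤ (φ g).1 y) ∧ (b = false → (φ g).1 y ≤ 1 / 3)

/-- Points with a controlling tuple. -/
def ZZ {X Y : Type u} [TopologicalSpace X] [TopologicalSpace Y] (φ : Cp X → Cp Y) (f : Cp X)
    (j : ℕ) (b : Bool) : Set Y := {y | ∃ x, Wit φ f j b y x}

/-- Basic properties of `ZZ` and `Wit`. -/
def ZP : Prop := ∀ (X Y : Type u) [TopologicalSpace X] [TopologicalSpace Y] [CompactSpace X]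
  [T2Space X] (φ : Cp X → Cp Y),
  (∀ f j b, IsClosed (ZZ φ f j b)) ∧
  (Continuous φ → Nonempty X → ∀ f b y, (b = true → 2 / 3 < (φ f).1 y) →
    (b = false → (φ f).1 y < 1 / 3) → ∃ j₀, ∀ j, j₀ ≤ j → y ∈ ZZ φ f j b) ∧
  (∀ f f' j y x x', Wit φ f j true y x → Wit φ f' j false y x' →
    ∃ l l', x l = x' l' ∧ 2 / ((j : ℝ) + 1) ≤ |f.1 (x l) - f'.1 (x l)|)

/-- A good finite set of coordinates. -/
def Good {X κ : Type u} [TopologicalSpace X] (φ : Cp X → Cp (κ → unitInterval))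
    (N : Finset κ) : Prop :=
  ∃ (f : Cp X) (v : Bool → κ → unitInterval) (B : Finset κ) (p : κ → ℕ) (j : ℕ),
    (∀ z, f.1 z ∈ Icc (0 : ℝ) 1) ∧ Disjoint N B ∧ ∀ (b : Bool) (y : κ → unitInterval),
      (∀ k ∈ N, y k = v b k) → (∀ k ∈ B, y k = denseSeq unitInterval (p k)) → y ∈ ZZ φ f j b

/-- The Baire category step. -/
def Bai : Prop := ∀ (X κ : Type u) [TopologicalSpace X] [CompactSpace X] [T2Space X]
  (e : X → κ → unitInterval) (φ : Cp X → Cp (κ → unitInterval)) (D : Set κ) (x x' : X),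
  Continuous φ → (∀ f z, (φ f).1 (e z) = f.1 z) → x ≠ x' → (∀ k ∈ D, e x k = e x' k) →
  ∃ N : Finset κ, (∀ k ∈ N, k ∉ D) ∧ N.Nonempty ∧ Good φ N

/-- Few coordinates do not separate the points of a space of large weight. -/
def Wt : Prop := ∀ (lam : Cardinal.{u}) (X κ : Type u) [TopologicalSpace X] [CompactSpace X]
  (e : X → κ → unitInterval) (D : Set κ), Continuous e → ℵ₀ < lam → Cardinal.mk D < lam →
  (∀ B : Set (Set X), IsTopologicalBasis B → lam ≤ Cardinal.mk B) →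
  ∃ x x', x ≠ x' ∧ ∀ k ∈ D, e x k = e x' k

/-- All patterns on a large family are realised with one bound `j`. -/
def Pat : Prop := ∀ (lam : Cardinal.{u}) (X κ : Type u) [TopologicalSpace X]
  (φ : Cp X → Cp (κ → unitInterval)), ℵ₀ < lam.ord.cof →
  (∀ D : Set κ, Cardinal.mk D < lam → ∃ N : Finset κ, (∀ k ∈ N, k ∉ D) ∧ N.Nonempty ∧ Good φ N) →
  ∃ (S : Set (Finset κ)) (f : Finset κ → Cp X) (j : ℕ), lam ≤ Cardinal.mk S ∧
    (∀ i z, (f i).1 z ∈ Icc (0 : ℝ) 1) ∧
    ∀ σ : Finset κ → Bool, ∃ y, ∀ i ∈ S, y ∈ ZZ φ (f i) j (σ i)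

/-- The bump functions of the example. -/
noncomputable def bump (n : ℕ) (t : ℝ) : ℝ := max 0 (min t (1 / ((n : ℝ) + 1) - t))

/-- The example for countable cofinality. -/
def Ex {ι : Type u} (c : ι → ℕ) : Set (Option ι → unitInterval) :=
  {y | ∀ k, (y (some k) : ℝ) ≤ bump (c k) (y none)}

/-- The example is t-extral. -/
def ExA : Prop := ∀ (ι : Type u) (c : ι → ℕ), IsClosed (Ex c) ∧ TExtral (Ex c)

/-- The example has large weight. -/
def ExB : Prop := ∀ (ι : Type u) (c : ι → ℕ), ℵ₀ < Cardinal.mk ι →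
  ∀ B : Set (Set (Ex c)), IsTopologicalBasis B → Cardinal.mk ι ≤ Cardinal.mk B

/-- A compact space whose image contains a box of a cube has large weight. -/
def ExC : Prop := ∀ (X ι : Type u) [TopologicalSpace X] [CompactSpace X]
  (g : X → ι → unitInterval), ℵ₀ < Cardinal.mk ι → Continuous g →
  (interior (range g)).Nonempty →
  ∀ B : Set (Set X), IsTopologicalBasis B → Cardinal.mk ι ≤ Cardinal.mk B

/-- The example does not map onto the cube. -/
def ExD : Prop := ∀ (ι : Type u) (c : ι → ℕ), ℵ₀ < Cardinal.mk ι →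
  (∀ n, Cardinal.mk {k | c k < n} < Cardinal.mk ι) →
  ∀ g : Ex c → ι → unitInterval, Continuous g → ¬ Function.Surjective g

/-- A rank function with small levels. -/
def ExE : Prop := ∀ ι : Type u, ℵ₀ < Cardinal.mk ι → ¬ ℵ₀ < (Cardinal.mk ι).ord.cof →
  ∃ c : ι → ℕ, ∀ n, Cardinal.mk {k | c k < n} < Cardinal.mk ι

theorem card_Dlt {lam : Cardinal.{u}} {J α : Type u} (hr : lam.IsRegular) (n : ℕ) :
    ∀ (S : Set J) (B : J → Finset α), lam ≤ Cardinal.mk S → (∀ i ∈ S, (B i).card = n) →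
      ∃ T ⊆ S, lam ≤ Cardinal.mk T ∧ ∃ R : Finset α, (∀ i ∈ T, R ⊆ B i) ∧
        ∀ i ∈ T, ∀ j ∈ T, i ≠ j → ∀ a ∈ B i, a ∈ B j → a ∈ R := by
  classical
  induction n with
  | zero =>
    intro S B hS hB
    refine ⟨S, subset_rfl, hS, ∅, fun i _ => Finset.empty_subset _, fun i hi j _ _ a ha _ => ?_⟩
    rwa [Finset.card_eq_zero.1 (hB i hi)] at ha
  | succ n ih =>
    intro S B hS hB
    by_cases h : ∃ a, lam ≤ Cardinal.mk {i | i ∈ S ∧ a ∈ B i}
    · obtain ⟨a, ha⟩ := h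
      obtain ⟨T, hT, hl, R, hR, hP⟩ := ih _ (fun i => (B i).erase a) ha (by
        intro i hi
        rw [Finset.card_erase_of_mem hi.2, hB i hi.1]
        simp)
      refine ⟨T, fun i hi => (hT hi).1, hl, insert a R, fun i hi => ?_,
        fun i hi j hj hij b hb hb' => ?_⟩
      · exact Finset.insert_subset (hT hi).2 ((hR i hi).trans (Finset.erase_subset _ _))
      · by_cases e : b = a
        · exact Finset.mem_insert.2 (Or.inl e)
        · exact Finset.mem_insert_of_mem (hP i hi j hj hij b (Finset.mem_erase.2 ⟨e, hb⟩)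
            (Finset.mem_erase.2 ⟨e, hb'⟩))
    · push Not at h
      obtain ⟨M, hM⟩ := zorn_subset
        {M : Set J | M ⊆ S ∧ M.Pairwise (fun i j => Disjoint (B i) (B j))} (by
          intro c hc hchain
          refine ⟨⋃₀ c, ⟨sUnion_subset fun t ht => (hc ht).1, ?_⟩,
            fun s hs => subset_sUnion_of_mem hs⟩
          intro i hi j hj hij
          obtain ⟨s, hs, his⟩ := hi
          obtain ⟨t, ht, hjt⟩ := hj
          rcases hchain.total hs ht with hst | hts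
          · exact (hc ht).2 (hst his) hjt hij
          · exact (hc hs).2 his (hts hjt) hij)
      refine ⟨M, hM.prop.1, ?_, ∅, fun i _ => Finset.empty_subset _,
        fun i hi j hj hij a ha ha' => (Finset.disjoint_left.1 (hM.prop.2 hi hj hij) ha ha').elim⟩
      by_contra hMc
      have hU : Cardinal.mk (⋃ i ∈ M, ⋃ a ∈ (B i : Set α), {j | j ∈ S ∧ a ∈ B j} : Set J) < lam :=
        (card_biUnion_lt_iff_forall_of_isRegular hr (not_le.1 hMc)).2 fun i _ =>
          (card_biUnion_lt_iff_forall_of_isRegular hr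
            ((B i).finite_toSet.lt_aleph0.trans_le hr.aleph0_le)).2 fun a _ => h a
      refine (hS.trans (Cardinal.mk_le_mk_of_subset fun j hj => ?_)).not_gt hU
      by_contra hcon
      simp only [mem_iUnion, not_exists, mem_ofPred_eq, not_and, Finset.mem_coe] at hcon
      have hins : insert j M ∈
          {M : Set J | M ⊆ S ∧ M.Pairwise (fun i j => Disjoint (B i) (B j))} := by
        refine ⟨insert_subset hj hM.prop.1, ?_⟩
        refine hM.prop.2.insert_of_symm ?_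
        intro i hi _
        rw [Finset.disjoint_left]
        intro a haj hai
        exact hcon i hi a hai hj haj
      have hjM : j ∈ M := hM.mem_of_prop_insert hins
      obtain ⟨a, ha⟩ : (B j).Nonempty := Finset.card_pos.1 (by rw [hB j hj]; omega)
      exact hcon j hjM a ha hj ha

theorem dlt : Dlt.{u} := by
  intro lam J α S B hr h0 hS
  obtain ⟨n, T, hT, hl, hn⟩ := pig (by rwa [hr.cof_ord]) hS fun i => (B i).card
  obtain ⟨T', h1, h2⟩ := card_Dlt hr n T B hl hn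
  exact ⟨T', h1.trans hT, h2⟩

theorem calR (h1 : Dlt.{u}) : CalR.{u} := by
  classical
  intro lam J α S B p hr h0 hS
  obtain ⟨T, hT, hl, R, hR, hP⟩ := h1 lam J α S B hr h0 hS
  obtain ⟨b, T', hT', hl', hb⟩ := pig (by rwa [hr.cof_ord]) hl fun i (a : R) => p i a
  refine ⟨T', hT'.trans hT, hl', R, fun a => if h : a ∈ R then b ⟨a, h⟩ else 0,
    fun i hi => ⟨hR i (hT' hi), fun a ha => ?_⟩, fun i hi j hj => hP i (hT' hi) j (hT' hj)⟩
  simp only [dif_pos ha]
  exact congrFun (hb i hi) ⟨a, ha⟩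

theorem cofS : Cof.{u} := by
  intro lam h0 hreg
  have hs := Cardinal.IsSingular.of_not_isRegular h0 hreg
  have hcl := hs.cof_ord_lt
  have hlim := hs.isSuccLimit
  have hc0 : ℵ₀ ≤ lam.ord.cof := Ordinal.aleph0_le_cof_iff.2
    (Ordinal.one_lt_cof_iff.2 (Cardinal.isSuccLimit_ord h0))
  obtain ⟨s, hcof, hty⟩ := Ordinal.exists_ord_cof_eq lam.ord.ToType
  rw [Ordinal.cof_toType] at hty
  have hms : Cardinal.mk s = lam.ord.cof := by
    rw [← Ordinal.card_type (α := s) (· < ·), hty, Cardinal.card_ord]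
  have hI : ∀ x : lam.ord.ToType, Cardinal.mk (Iio x) < lam := fun x => by
    simpa using Cardinal.mk_Iio_lt x
  let th : s → Cardinal.{u} := fun x =>
    Order.succ (max lam.ord.cof (Cardinal.mk (Iio (x : lam.ord.ToType))))
  have hth : ∀ x, (th x).IsRegular ∧ lam.ord.cof < th x ∧ th x < lam := fun x =>
    ⟨Cardinal.isRegular_succ (hc0.trans (le_max_left _ _)),
      (le_max_left _ _).trans_lt (Order.lt_succ _), hlim.succ_lt (max_lt hcl (hI _))⟩
  have hz : ∀ ν < lam, ∃ z : s, ν ≤ Cardinal.mk (Iio (z : lam.ord.ToType)) := by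
    intro ν hν
    obtain ⟨z, hz⟩ := Ordinal.typein_surj (α := lam.ord.ToType) (· < ·) (o := ν.ord)
      (by rw [Ordinal.type_toType]; exact Cardinal.ord_lt_ord.2 hν)
    obtain ⟨y, hy, hzy⟩ := hcof z
    refine ⟨⟨y, hy⟩, le_trans ?_ (Cardinal.mk_le_mk_of_subset (Iio_subset_Iio hzy))⟩
    have := congrArg Ordinal.card hz
    rw [Cardinal.card_ord, Ordinal.card_typein] at this
    exact this.ge
  have hsm : ∀ ν < lam, Cardinal.mk {x : s | th x ≤ ν} < lam.ord.cof := by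
    intro ν hν
    obtain ⟨z, hz⟩ := hz ν hν
    refine lt_of_le_of_lt (Cardinal.mk_le_mk_of_subset (t := Iio z) fun x hx => ?_) ?_
    · by_contra hn
      have h1 : (z : lam.ord.ToType) ≤ x := not_lt.1 hn
      have h2 := Cardinal.mk_le_mk_of_subset (Iio_subset_Iio h1)
      exact absurd (((hz.trans h2).trans (le_max_right _ _)).trans_lt (Order.lt_succ _))
        (not_lt.2 hx)
    · rw [← hms]
      exact Cardinal.mk_Iio_lt z (by rw [hms, hty])
  obtain ⟨M, hM1, hM2⟩ := Set.exists_image_eq_injOn_of_subset_range (f := th)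
    (t := Set.range th) subset_rfl
  refine ⟨M, fun m => th m, le_antisymm (hms ▸ Cardinal.mk_set_le M) ?_, fun m => hth m,
    fun m m' h => Subtype.ext (hM2 m.2 m'.2 h), fun ν hν => lt_of_le_of_lt ?_ (hsm ν hν)⟩
  · by_contra hn
    have h1 := Cardinal.iSup_lt_of_lt_cof_ord (f := fun m : M => th m) (not_le.1 hn)
      fun m => (hth m).2.2
    refine absurd (hsm _ h1) (not_lt.2 ?_)
    rw [← hms, ← Cardinal.mk_univ]
    refine Cardinal.mk_le_mk_of_subset fun x _ => ?_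
    obtain ⟨m, hm, e⟩ : th x ∈ th '' M := hM1.symm ▸ mem_range_self x
    exact e.ge.trans (le_ciSup (f := fun m : M => th m) Cardinal.bddAbove_of_small ⟨m, hm⟩)
  · exact Cardinal.mk_le_of_injective (f := fun m => ⟨m.1.1, m.2⟩) fun a b h =>
      Subtype.ext (Subtype.ext (Subtype.mk.inj h))

theorem fin_Cal {ι α : Type u} {s : Set ι} (B : ι → Finset α) {θ : Cardinal.{u}} (h0 : ℵ₀ < θ)
    (hs : Cardinal.mk s < θ) : Cardinal.mk (⋃ i : s, ((B i.1 : Finset α) : Set α)) < θ := by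
  refine (Cardinal.mk_iUnion_le _).trans_lt ?_
  refine Cardinal.mul_lt_of_lt h0.le hs (lt_of_le_of_lt ?_ h0)
  exact ciSup_le' fun i => ((B i.1).finite_toSet.lt_aleph0).le

theorem cal (h1 : CalR.{u}) (h2 : Cof.{u}) : Cal.{u} := by
  classical
  intro lam J α S B p hc hS
  have hl : ℵ₀ < lam := hc.trans_le (Ordinal.cof_ord_le _)
  by_cases hr : lam.IsRegular
  · obtain ⟨T, hT, hb, R, r, k1, k2⟩ := h1 lam J α S B p hr hl hS
    refine ⟨T, hT, hb, fun i hi j hj a ha ha' => ?_⟩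
    by_cases hij : i = j
    · rw [hij]
    · have := k2 i hi j hj hij a ha ha'
      rw [(k1 i hi).2 a this, (k1 j hj).2 a this]
  obtain ⟨M, θ, hM, hθ, hinj, hbd⟩ := h2 lam hl.le hr
  have hμ : lam.ord.cof.IsRegular := Cardinal.isRegular_cof (Cardinal.isSuccLimit_ord hl.le)
  have key : ∀ m, ∃ T ⊆ S, Cardinal.mk T = θ m ∧ ∃ (R : Finset α) (r : α → ℕ),
      (∀ i ∈ T, R ⊆ B i ∧ ∀ a ∈ R, p i a = r a) ∧
      ∀ i ∈ T, ∀ j ∈ T, i ≠ j → ∀ a ∈ B i, a ∈ B j → a ∈ R := by
    intro m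
    obtain ⟨T, hT, hb, R, r, k1, k2⟩ := h1 (θ m) J α S B p (hθ m).1 (hc.trans (hθ m).2.1)
      ((hθ m).2.2.le.trans hS)
    obtain ⟨T', hT', e⟩ := Cardinal.le_mk_iff_exists_subset.1 hb
    exact ⟨T', hT'.trans hT, e, R, r, fun i hi => k1 i (hT' hi),
      fun i hi j hj => k2 i (hT' hi) j (hT' hj)⟩
  choose T hT hcard R r k1 k2 using key
  obtain ⟨M', -, hM', R₀, r₀, m1, m2⟩ := h1 lam.ord.cof M α univ R r hμ hc
    (by rw [Cardinal.mk_univ, hM])
  let W : M → Set α := fun m => (⋃ m' : (univ : Set M), ((R m'.1 : Finset α) : Set α)) ∪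
    ⋃ m' ∈ {m' | θ m' < θ m}, ⋃ i : T m', ((B i.1 : Finset α) : Set α)
  have hW : ∀ m, Cardinal.mk (W m) < θ m := by
    intro m
    have h0 : ℵ₀ < θ m := hc.trans (hθ m).2.1
    refine (Cardinal.mk_union_le _ _).trans_lt (Cardinal.add_lt_of_lt h0.le ?_ ?_)
    · exact fin_Cal R h0 (by rw [Cardinal.mk_univ, hM]; exact (hθ m).2.1)
    · refine (Cardinal.card_biUnion_lt_iff_forall_of_isRegular (hθ m).1 ?_).2 ?_
      · refine lt_of_le_of_lt (Cardinal.mk_le_mk_of_subset ?_)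
          ((hbd (θ m) (hθ m).2.2).trans (hθ m).2.1)
        intro m' hm'
        exact le_of_lt (show θ m' < θ m from hm')
      · intro m' hm'
        exact fin_Cal B h0 (by rw [hcard]; exact hm')
  let T' : M → Set J := fun m => {i | i ∈ T m ∧ ∀ a ∈ B i, a ∈ W m → a ∈ R m}
  have hT' : ∀ m, θ m ≤ Cardinal.mk (T' m) := by
    intro m
    by_contra hlt
    have h0 : ℵ₀ < θ m := hc.trans (hθ m).2.1
    have e1 : ∀ i : (T m \ T' m : Set J), ∃ a : W m, a.1 ∈ B i.1 ∧ a.1 ∉ R m := by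
      rintro ⟨i, hi, hi'⟩
      by_contra hcon
      exact hi' ⟨hi, fun a ha ha' => by
        by_contra h
        exact hcon ⟨⟨a, ha'⟩, ha, h⟩⟩
    choose g hg using e1
    have e2 : Cardinal.mk (T m \ T' m : Set J) ≤ Cardinal.mk (W m) := by
      refine Cardinal.mk_le_of_injective (f := g) fun i j hij => ?_
      by_contra hne
      exact (hg i).2 (k2 m i.1 i.2.1 j.1 j.2.1 (fun h => hne (Subtype.ext h)) _ (hg i).1
        (hij ▸ (hg j).1))
    have e3 : Cardinal.mk (T m) ≤ Cardinal.mk (T' m) + Cardinal.mk (T m \ T' m : Set J) :=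
      (Cardinal.mk_le_mk_of_subset (by
        intro i hi
        by_cases h : i ∈ T' m
        · exact Or.inl h
        · exact Or.inr ⟨hi, h⟩)).trans (Cardinal.mk_union_le _ _)
    rw [hcard] at e3
    exact absurd e3 (not_le.2 (Cardinal.add_lt_of_lt h0.le (not_le.1 hlt) (e2.trans_lt (hW m))))
  have hlt : ∀ m ∈ M', ∀ m' ∈ M', θ m' < θ m → ∀ i ∈ T' m, ∀ j ∈ T' m', ∀ a ∈ B i, a ∈ B j →
      p i a = p j a := by
    intro m hm m' hm' hlt i hi j hj a ha ha'
    have e1 : a ∈ R m := hi.2 a ha (Or.inr (mem_biUnion (t := fun m' => ⋃ i : T m',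
      ((B i.1 : Finset α) : Set α)) hlt (mem_iUnion.2 ⟨⟨j, hj.1⟩, ha'⟩)))
    have e2 : a ∈ R m' := hj.2 a ha' (Or.inl (mem_iUnion.2 ⟨⟨m, mem_univ _⟩, e1⟩))
    have e3 : a ∈ R₀ := m2 m hm m' hm' (fun h => hlt.ne (by rw [h])) a e1 e2
    rw [(k1 m i hi.1).2 a e1, (k1 m' j hj.1).2 a e2, (m1 m hm).2 a e3, (m1 m' hm').2 a e3]
  refine ⟨⋃ m ∈ M', T' m, iUnion₂_subset fun m _ i hi => hT m hi.1, ?_, ?_⟩
  · by_contra hcon
    refine absurd hM' (not_le.2 (lt_of_le_of_lt (Cardinal.mk_le_mk_of_subset ?_)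
      (hbd _ (not_le.1 hcon))))
    intro m hm
    exact (hT' m).trans (Cardinal.mk_le_mk_of_subset (subset_biUnion_of_mem (u := T') hm))
  · intro i hi j hj a ha ha'
    obtain ⟨m, hm, hi⟩ := mem_iUnion₂.1 hi
    obtain ⟨m', hm', hj⟩ := mem_iUnion₂.1 hj
    rcases lt_trichotomy (θ m) (θ m') with h | h | h
    · exact (hlt m' hm' m hm h j hj i hi a ha' ha).symm
    · obtain rfl := hinj h
      by_cases hij : i = j
      · rw [hij]
      · have := k2 m i hi.1 j hj.1 hij a ha ha'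
        rw [(k1 m i hi.1).2 a this, (k1 m j hj.1).2 a this]
    · exact hlt m hm m' hm' h i hi j hj a ha ha'

theorem fre (h1 : Cal.{u}) : Fre.{u} := by
  classical
  intro lam J α S B p F hc hS hF
  obtain ⟨T, hT, hb, h⟩ := h1 lam J (α ⊕ J) S (fun i => (B i).disjSum (insert i (F i)))
    (fun i => Sum.elim (p i) (fun j => if j = i then 1 else 0)) hc hS
  refine ⟨T, hT, hb, fun i hi j hj a ha ha' => ?_, fun i hi j hj hij => ?_⟩
  · exact h i hi j hj (Sum.inl a) (by simpa using ha) (by simpa using ha')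
  · have hne : i ≠ j := fun e => hF j (hT hj) (e ▸ hij)
    have := h i hi j hj (Sum.inr i) (by simp) (by simp [hij])
    simp [hne] at this

/-- every finite pattern off a finite part of `I` is realised inside the `H`-cells of that part -/
def P_Tal1 {J Ω : Type u} (S : Set J) (E : J → Bool → Set Ω) (H : J → Set Ω) (b : Bool)
    (I : Set J) : Prop :=
  I ⊆ S ∧ ∀ (J0 G : Finset J) (σ : J → Bool), (J0 : Set J) ⊆ I → (G : Set J) ⊆ S →
    Disjoint J0 G → ∃ ω, (∀ j ∈ J0, ω ∈ E j b ∧ ω ∈ H j) ∧ ∀ i ∈ G, ω ∈ E i (σ i)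

theorem max_Tal1 {J Ω : Type u} {S : Set J} {E : J → Bool → Set Ω} (H : J → Set Ω) (b : Bool)
    (hE : Ind E S) : ∃ I, Maximal (P_Tal1 S E H b) I := by
  have h0 : P_Tal1 S E H b ∅ := ⟨empty_subset _, fun J0 G σ hJ hG _ => by
    obtain ⟨ω, hω⟩ := hE G σ hG
    exact ⟨ω, fun j hj => (hJ hj).elim, hω⟩⟩
  obtain ⟨I, -, hI⟩ := zorn_subset_nonempty {I | P_Tal1 S E H b I} (fun c hc hch hne => by
    refine ⟨⋃ i ∈ c, i, ⟨iUnion₂_subset fun i hi => (hc hi).1, fun J0 G σ hJ hG hd => ?_⟩,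
      fun s hs => subset_biUnion_of_mem (u := fun i => i) hs⟩
    obtain ⟨i, hi, hJi⟩ := DirectedOn.exists_mem_subset_of_finset_subset_biUnion
      (f := fun i : Set J => i) hne hch.directedOn hJ
    exact (hc hi).2 J0 G σ hJi hG hd) ∅ h0
  exact ⟨I, hI⟩

theorem out_Tal1 {J Ω : Type u} {S I : Set J} {E : J → Bool → Set Ω} {H : J → Set Ω} {b : Bool}
    (hI : Maximal (P_Tal1 S E H b) I) (β : J) (hβ : β ∈ S \ I) :
    ∃ (J0 G : Finset J) (σ : J → Bool), (J0 : Set J) ⊆ I ∧ (G : Set J) ⊆ S ∧ Disjoint J0 G ∧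
      β ∉ G ∧ ∀ ω, (∀ j ∈ J0, ω ∈ E j b ∧ ω ∈ H j) → (∀ i ∈ G, ω ∈ E i (σ i)) → ω ∈ E β b →
        ω ∉ H β := by
  classical
  by_contra hcon
  refine hβ.2 (hI.2 (y := insert β I) ⟨insert_subset hβ.1 hI.1.1, fun J0 G σ hJ hG hd => ?_⟩
    (subset_insert _ _) (mem_insert _ _))
  have hJ' : ((J0.erase β : Finset J) : Set J) ⊆ I := fun a ha => by
    have ha' := Finset.mem_erase.1 (Finset.mem_coe.1 ha)
    exact (mem_insert_iff.1 (hJ ha'.2)).resolve_left ha'.1
  by_cases hm : β ∈ J0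
  · by_contra hno
    refine hcon ⟨J0.erase β, G, σ, hJ', hG, hd.mono_left (Finset.erase_subset _ _),
      Finset.disjoint_left.1 hd hm, fun ω h1 h2 h3 h4 => hno ⟨ω, fun j hj => ?_, h2⟩⟩
    by_cases e : j = β
    · rw [e]; exact ⟨h3, h4⟩
    · exact h1 j (Finset.mem_erase.2 ⟨e, hj⟩)
  · rw [Finset.erase_eq_of_notMem hm] at hJ'
    exact hI.1.2 J0 G σ hJ' hG hd

theorem tal1 (h1 : Fre.{u}) : Tal1.{u} := by
  classical
  intro lam J Ω S E H b hc hS hE
  obtain ⟨I, hI⟩ := max_Tal1 H b hE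
  by_cases hl : lam ≤ Cardinal.mk I
  · refine ⟨I, hI.1.1, hl, Or.inl fun G σ hG => ?_⟩
    obtain ⟨ω, h2, h3⟩ := hI.1.2 (G.filter fun i => σ i = b) (G.filter fun i => ¬ σ i = b) σ
      ((Finset.coe_subset.2 (Finset.filter_subset _ _)).trans hG)
      ((Finset.coe_subset.2 (Finset.filter_subset _ _)).trans (hG.trans hI.1.1))
      (Finset.disjoint_filter_filter_not _ _ _)
    refine ⟨ω, fun i hi => ?_⟩
    by_cases e : σ i = b
    · have := h2 i (Finset.mem_filter.2 ⟨hi, e⟩)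
      exact ⟨e ▸ this.1, fun _ => this.2⟩
    · exact ⟨h3 i (Finset.mem_filter.2 ⟨hi, e⟩), fun h => (e h).elim⟩
  have h0 : ℵ₀ ≤ lam := hc.le.trans (Ordinal.cof_ord_le lam)
  have hS' : lam ≤ Cardinal.mk (S \ I : Set J) := by
    by_contra h
    exact ((le_mk_diff_add_mk S I).trans_lt
      (add_lt_of_lt h0 (not_le.1 h) (not_le.1 hl))).not_ge hS
  choose! Jb G s hJ hG hd hβ hout using out_Tal1 hI
  obtain ⟨T, hT, hlT, hcomp, hfree⟩ := h1 lam J J (S \ I) (fun β => Jb β ∪ G β)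
    (fun β a => if a ∈ Jb β then 2 else (s β a).toNat) G hc hS' hβ
  refine ⟨T, hT.trans diff_subset, hlT, Or.inr fun G0 σ hG0 => ?_⟩
  have hnJ : ∀ β ∈ G0, ∀ a ∈ G β, a ∉ Jb β := fun β hb a ha =>
    Finset.disjoint_right.1 (hd β (hT (hG0 hb))) ha
  obtain ⟨ω, h2, h3⟩ := hI.1.2 (G0.biUnion Jb) (G0 ∪ G0.biUnion G)
    (fun a => if a ∈ G0 then σ a else decide (∃ β ∈ G0, a ∈ G β ∧ s β a = true))
    (fun a ha => by
      obtain ⟨β, hb, ha⟩ := Finset.mem_biUnion.1 (Finset.mem_coe.1 ha)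
      exact hJ β (hT (hG0 hb)) ha)
    (fun a ha => by
      rcases Finset.mem_union.1 (Finset.mem_coe.1 ha) with ha | ha
      · exact (hT (hG0 ha)).1
      · obtain ⟨β, hb, ha⟩ := Finset.mem_biUnion.1 ha
        exact hG β (hT (hG0 hb)) ha)
    (Finset.disjoint_left.2 fun a ha ha' => by
      obtain ⟨β, hb, ha⟩ := Finset.mem_biUnion.1 ha
      rcases Finset.mem_union.1 ha' with ha' | ha'
      · exact (hT (hG0 ha')).2 (hJ β (hT (hG0 hb)) ha)
      · obtain ⟨β', hb', ha'⟩ := Finset.mem_biUnion.1 ha'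
        have e := hcomp β (hG0 hb) β' (hG0 hb') a (Finset.mem_union_left _ ha)
          (Finset.mem_union_right _ ha')
        simp only [if_pos ha, if_neg (hnJ β' hb' a ha')] at e
        have := Bool.toNat_le (s β' a)
        omega)
  refine ⟨ω, fun i hi => ?_⟩
  have h4 : ω ∈ E i (σ i) := by simpa only [if_pos hi] using h3 i (Finset.mem_union_left _ hi)
  refine ⟨h4, fun e => hout i (hT (hG0 hi)) ω
    (fun j hj => h2 j (Finset.mem_biUnion.2 ⟨i, hi, hj⟩)) (fun a ha => ?_) (e ▸ h4)⟩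
  have h5 := h3 a (Finset.mem_union_right _ (Finset.mem_biUnion.2 ⟨i, hi, ha⟩))
  have h6 : a ∉ G0 := fun h => hfree a (hG0 h) i (hG0 hi) ha
  have h7 : decide (∃ β ∈ G0, a ∈ G β ∧ s β a = true) = s i a := by
    rw [Bool.eq_iff_iff, decide_eq_true_iff]
    refine ⟨fun ⟨β, hb, ha', e'⟩ => ?_, fun e' => ⟨i, hi, ha, e'⟩⟩
    have e2 := hcomp β (hG0 hb) i (hG0 hi) a (Finset.mem_union_right _ ha')
      (Finset.mem_union_right _ ha)
    simp only [if_neg (hnJ β hb a ha'), if_neg (hnJ i hi a ha), e'] at e2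
    cases h : s i a
    · rw [h] at e2; simp at e2
    · rfl
  simpa only [if_neg h6, h7] using h5

theorem mono_Tal {J Ω : Type u} {E E' : J → Bool → Set Ω} {S : Set J} (h : Ind E S)
    (hE : ∀ i b ω, ω ∈ E i b → ω ∈ E' i b) : Ind E' S := fun G σ hG => by
  obtain ⟨ω, hω⟩ := h G σ hG
  exact ⟨ω, fun i hi => hE _ _ _ (hω i hi)⟩

theorem one_Tal (h1 : Tal1.{u}) {lam : Cardinal.{u}} {J Ω : Type u} {γ : Type} (c : J → Ω → γ)
    (b : Bool) (hc : ℵ₀ < lam.ord.cof) (s : Finset γ) :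
    ∀ (S : Set J) (E : J → Bool → Set Ω), lam ≤ Cardinal.mk S → Ind E S →
      (∀ i, ∀ ω ∈ E i b, c i ω ∈ s) → ∃ T ⊆ S, lam ≤ Cardinal.mk T ∧
        ∃ d, Ind (fun i b' => {ω | ω ∈ E i b' ∧ (b' = b → c i ω = d)}) T := by
  classical
  induction s using Finset.induction_on with
  | empty =>
    intro S E hS hE hs
    have h0 : ℵ₀ ≤ lam := hc.le.trans (Ordinal.cof_ord_le lam)
    have hne : S.Nonempty := by
      rw [← Set.nonempty_coe_sort, ← Cardinal.mk_ne_zero_iff]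
      exact (Cardinal.aleph0_pos.trans_le (h0.trans hS)).ne'
    obtain ⟨i, hi⟩ := hne
    obtain ⟨ω, hω⟩ := hE {i} (fun _ => b) (by simpa using hi)
    exact absurd (hs i ω (hω i (Finset.mem_singleton_self i))) (Finset.notMem_empty _)
  | insert d s _ ih =>
    intro S E hS hE hs
    obtain ⟨T, hT, hl, k | k⟩ := h1 lam J Ω S E (fun i => {ω | c i ω = d}) b hc hS hE
    · exact ⟨T, hT, hl, d, k⟩
    · obtain ⟨T', hT', hl', d', k'⟩ := ih T _ hl k (fun i ω hω =>
        (Finset.mem_insert.1 (hs i ω hω.1)).resolve_left (hω.2 rfl))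
      exact ⟨T', hT'.trans hT, hl', d', mono_Tal k' fun i b' ω hω => ⟨hω.1.1, hω.2⟩⟩

theorem tal (h1 : Tal1.{u}) : Tal.{u} := by
  intro lam J Ω S E γ c hγ hc hS hE
  have := Fintype.ofFinite γ
  obtain ⟨T, hT, hl, d, k⟩ := one_Tal h1 c true hc Finset.univ S E hS hE
    (fun _ _ _ => Finset.mem_univ _)
  obtain ⟨T', hT', hl', d', k'⟩ := one_Tal h1 c false hc Finset.univ T _ hl k
    (fun _ _ _ => Finset.mem_univ _)
  refine ⟨T', hT'.trans hT, hl', fun b => cond b d d', mono_Tal k' fun i b ω hω => ⟨hω.1.1, ?_⟩⟩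
  cases b
  · exact hω.2 rfl
  · exact hω.1.2 rfl

theorem ker : Ker.{u} := by
  classical
  intro n M
  induction n with
  | zero =>
    refine ⟨0, fun P A _ => ⟨∅, le_rfl, fun K hK hA L hL => ?_⟩⟩
    obtain ⟨z, hz, _⟩ := hA L hL
    rw [Finset.card_eq_zero.1 (Nat.le_zero.1 hK)] at hz
    exact absurd hz (Finset.notMem_empty _)
  | succ n ih =>
    obtain ⟨N, hN⟩ := ih
    refine ⟨M + M * N, fun P A hA => ?_⟩
    rcases A.eq_empty_or_nonempty with rfl | ⟨L₀, h₀⟩
    · exact ⟨∅, Nat.zero_le _, fun _ _ _ L hL => absurd hL (Set.notMem_empty _)⟩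
    · choose R hR hR' using fun z : P => hN P {L | L ∈ A ∧ z ∉ L} (fun L hL => hA L hL.1)
      refine ⟨L₀ ∪ L₀.biUnion R, ?_, fun K hK hT L hL => ?_⟩
      · refine (Finset.card_union_le _ _).trans (Nat.add_le_add (hA _ h₀) ?_)
        exact (Finset.card_biUnion_le_card_mul _ _ N fun z _ => hR z).trans
          (Nat.mul_le_mul_right _ (hA _ h₀))
      · obtain ⟨z, hz, hz₀⟩ := hT L₀ h₀
        by_cases hzL : z ∈ L
        · exact ⟨z, hz, hzL, Finset.mem_union_left _ hz₀⟩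
        · obtain ⟨w, w1, w2, w3⟩ := hR' z (K.erase z)
            (by rw [Finset.card_erase_of_mem hz]; omega)
            (fun L' hL' => by
              obtain ⟨w, w1, w2⟩ := hT L' hL'.1
              exact ⟨w, Finset.mem_erase.2 ⟨fun e => hL'.2 (e ▸ w2), w1⟩, w2⟩) L ⟨hL, hzL⟩
          exact ⟨w, Finset.mem_of_mem_erase w1, w2,
            Finset.mem_union_right _ (Finset.mem_biUnion.2 ⟨z, hz₀, w3⟩)⟩

theorem close_Tup {m s t : ℝ} (hm : 0 < m) (hs : 0 ≤ s) (ht : 0 ≤ t)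
    (h : ⌊m * t⌋₊ = ⌊m * s⌋₊) : |t - s| < 1 / m := by
  have h1 := Nat.floor_le (mul_nonneg hm.le hs)
  have h2 := Nat.floor_le (mul_nonneg hm.le ht)
  have h3 := Nat.lt_floor_add_one (m * s)
  have h4 := Nat.lt_floor_add_one (m * t)
  rw [h] at h2 h4
  rw [lt_div_iff₀ hm, ← abs_of_pos hm, ← abs_mul, abs_lt]
  constructor <;> nlinarith

theorem enum_Tup {X : Type u} [Nonempty X] (R : Finset (X × ℕ)) {N : ℕ} (hN : R.card ≤ N) :
    ∃ w : Fin N → X, ∀ z ∈ R, ∃ l, w l = z.1 := by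
  classical
  refine ⟨fun l => if h : (l : ℕ) < R.card then (R.equivFin.symm ⟨l, h⟩).1.1
    else Classical.arbitrary X, fun z hz => ?_⟩
  have hlt := (R.equivFin ⟨z, hz⟩).2
  refine ⟨⟨(R.equivFin ⟨z, hz⟩ : ℕ), hlt.trans_le hN⟩, ?_⟩
  simp only [hlt, dif_pos, Fin.eta, Equiv.symm_apply_apply]

theorem tup (h1 : Ker.{u}) : Tup.{u} := by
  classical
  intro j
  obtain ⟨N, hN⟩ := h1 j (j * (j + 2))
  refine ⟨N, fun X J f σ G x hX hf hsep => ?_⟩
  have hm : (0 : ℝ) < (j : ℝ) + 1 := by positivity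
  let L : J → Finset (X × ℕ) := fun b =>
    ((Finset.univ.image (x b)) ×ˢ Finset.range (j + 2)).filter fun q =>
      ∃ t : ℝ, 0 ≤ t ∧ ⌊((j : ℝ) + 1) * t⌋₊ = q.2 ∧ 2 / ((j : ℝ) + 1) ≤ |t - f b q.1|
  let K : J → Finset (X × ℕ) := fun a =>
    Finset.univ.image fun l => (x a l, ⌊((j : ℝ) + 1) * f a (x a l)⌋₊)
  have hL : ∀ b, (L b).card ≤ j * (j + 2) := by
    intro b
    refine (Finset.card_filter_le _ _).trans ?_
    rw [Finset.card_product, Finset.card_range]
    refine Nat.mul_le_mul_right _ (Finset.card_image_le.trans ?_)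
    simp
  have hK : ∀ a, (K a).card ≤ j := fun a => Finset.card_image_le.trans (by simp)
  obtain ⟨R, hR, hRK⟩ := hN (X × ℕ) {A | ∃ b ∈ G, σ b = false ∧ A = L b}
    (by rintro _ ⟨b, -, -, rfl⟩; exact hL b)
  obtain ⟨w, hw⟩ := enum_Tup R hR
  refine ⟨w, fun a ha b hb hσa hσb => ?_⟩
  have hmeet : ∀ A ∈ {A | ∃ b ∈ G, σ b = false ∧ A = L b}, ∃ z ∈ K a, z ∈ A := by
    rintro _ ⟨c, hc, hσc, rfl⟩
    obtain ⟨l, l', he, hd⟩ := hsep a ha c hc hσa hσc
    refine ⟨(x a l, ⌊((j : ℝ) + 1) * f a (x a l)⌋₊),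
      Finset.mem_image.2 ⟨l, Finset.mem_univ _, rfl⟩, Finset.mem_filter.2 ⟨?_, ?_⟩⟩
    · refine Finset.mem_product.2 ⟨Finset.mem_image.2 ⟨l', Finset.mem_univ _, he.symm⟩, ?_⟩
      rw [Finset.mem_range]
      have hle : ((j : ℝ) + 1) * f a (x a l) ≤ ((j + 1 : ℕ) : ℝ) := by
        have := (hf a (x a l)).2
        push_cast
        nlinarith
      have := Nat.floor_le_of_le hle
      show ⌊((j : ℝ) + 1) * f a (x a l)⌋₊ < j + 2
      omega
    · exact ⟨f a (x a l), (hf a (x a l)).1, rfl, hd⟩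
  obtain ⟨z, hzK, hzL, hzR⟩ := hRK (K a) (hK a) hmeet (L b) ⟨b, hb, hσb, rfl⟩
  obtain ⟨l, -, rfl⟩ := Finset.mem_image.1 hzK
  obtain ⟨-, t, ht, hfl, hd⟩ := Finset.mem_filter.1 hzL
  obtain ⟨i, hi⟩ := hw _ hzR
  refine ⟨i, ?_⟩
  rw [hi]
  have hc := close_Tup hm (hf a (x a l)).1 ht hfl
  have htri := abs_sub_le t (f a (x a l)) (f b (x a l))
  have h2 : 2 / ((j : ℝ) + 1) = 1 / ((j : ℝ) + 1) + 1 / ((j : ℝ) + 1) := by ring
  simp only at hd ⊢
  linarith

theorem lev_Sep {J X Ω : Type u} {T : Set J} {f : J → X → ℝ} {E : J → Bool → Set Ω} {m : ℝ}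
    (hm : 0 < m) (h0 : ∀ i z, 0 ≤ f i z) (z : Ω → X) (k : Bool → ℕ) (v : Bool → Bool)
    (hE : Ind E T) (hk : ∀ i b ω, ω ∈ E i b → ⌊m * f i (z ω)⌋₊ = k b) :
    Ind (Lev f ((k (v false) + 1) / m) (k (v true) / m)) T := by
  intro G σ hG
  obtain ⟨ω, hω⟩ := hE G (fun i => v (σ i)) hG
  refine ⟨z ω, fun i hi => ⟨fun hb => ?_, fun hb => ?_⟩⟩
  · have h1 := hk i _ ω (hω i hi)
    rw [hb] at h1
    rw [div_le_iff₀ hm, ← h1, mul_comm _ m]
    exact Nat.floor_le (mul_nonneg hm.le (h0 _ _))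
  · have h1 := hk i _ ω (hω i hi)
    rw [hb] at h1
    rw [le_div_iff₀ hm, ← h1, mul_comm _ m]
    exact (Nat.lt_floor_add_one _).le

theorem gap_Sep {x y : ℝ} (hy : 0 ≤ y) (h : y + 2 ≤ x) : (⌊y⌋₊ : ℝ) + 1 < ⌊x⌋₊ := by
  have h1 := Nat.floor_le hy
  have h2 := Nat.lt_floor_add_one x
  linarith

theorem sep (h1 : Tal.{u}) : Sep.{u} := by
  classical
  intro lam J X S f N ε hc hS hε hf h
  obtain ⟨m, hm⟩ := exists_nat_gt (2 / ε)
  have hm0 : (0 : ℝ) < m := (div_pos two_pos hε).trans hm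
  rw [div_lt_iff₀ hε] at hm
  let Ω : Type u := {o : Finset J × (J → Bool) × (Fin N → X) // ∀ a ∈ o.1, ∀ b ∈ o.1,
    o.2.1 a = true → o.2.1 b = false → ∃ l, ε ≤ |f a (o.2.2 l) - f b (o.2.2 l)|}
  let E : J → Bool → Set Ω := fun i b => {o | i ∈ o.1.1 ∧ o.1.2.1 i = b}
  have hE : Ind E S := fun G σ hG => by
    obtain ⟨w, hw⟩ := h G σ hG
    exact ⟨⟨(G, σ, w), hw⟩, fun i hi => ⟨hi, rfl⟩⟩
  let c : J → Ω → Fin N → Fin (m + 1) := fun i o l => ⟨⌊(m : ℝ) * f i (o.1.2.2 l)⌋₊,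
    Nat.lt_succ_of_le (Nat.floor_le_of_le (mul_le_of_le_one_right hm0.le (hf _ _).2))⟩
  obtain ⟨T, hT, hT1, d, hd⟩ := h1 lam J Ω S E (Fin N → Fin (m + 1)) c inferInstance hc hS hE
  have hinf : T.Infinite := by
    rw [← Set.infinite_coe_iff, Cardinal.infinite_iff]
    exact (hc.le.trans (Ordinal.cof_ord_le lam)).trans hT1
  obtain ⟨a, ha, b, hb, hab⟩ := hinf.nontrivial
  obtain ⟨ω, hω⟩ := hd {a, b} (fun i => decide (i = a)) (by
    intro i hi
    simp only [Finset.coe_insert, Finset.coe_singleton, mem_insert_iff, mem_singleton_iff] at hi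
    rcases hi with rfl | rfl <;> assumption)
  have ea := hω a (by simp)
  have eb := hω b (by simp)
  simp only [decide_true, hab.symm, decide_false] at ea eb
  obtain ⟨l, hl⟩ := ω.2 a ea.1.1 b eb.1.1 ea.1.2 eb.1.2
  have key : ∀ i b ω, ω ∈ {ω | ω ∈ E i b ∧ c i ω = d b} →
      ⌊(m : ℝ) * f i (ω.1.2.2 l)⌋₊ = (d b l : ℕ) := fun i b ω hω => by
    rw [← hω.2]
  have fa := key a true ω ea
  have fb := key b false ω eb
  refine ⟨T, hT, hT1, ?_⟩
  rcases le_abs.1 hl with h2 | h2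
  · refine ⟨_, _, ?_, lev_Sep hm0 (fun i z => (hf i z).1) (fun o : Ω => o.1.2.2 l)
      (fun b => d b l) id hd key⟩
    refine div_lt_div_of_pos_right ?_ hm0
    simp only [id]
    rw [← fa, ← fb]
    exact gap_Sep (mul_nonneg hm0.le (hf _ _).1) (by nlinarith)
  · refine ⟨_, _, ?_, lev_Sep hm0 (fun i z => (hf i z).1) (fun o : Ω => o.1.2.2 l)
      (fun b => d b l) not hd key⟩
    refine div_lt_div_of_pos_right ?_ hm0
    simp only [Bool.not_false, Bool.not_true]
    rw [← fa, ← fb]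
    exact gap_Sep (mul_nonneg hm0.le (hf _ _).1) (by nlinarith)

theorem emb_Onto {ι J : Type u} [Infinite ι] {T : Set J} (h : Cardinal.mk ι ≤ Cardinal.mk T) :
    ∃ θ : ι × ℕ → J, Function.Injective θ ∧ ∀ a, θ a ∈ T := by
  have h1 : Cardinal.mk (ι × ULift.{u} ℕ) ≤ Cardinal.mk T := by
    rw [Cardinal.mk_prod, Cardinal.lift_id, Cardinal.lift_id, Cardinal.mk_denumerable (ULift.{u} ℕ),
      Cardinal.mul_aleph0_eq (Cardinal.aleph0_le_mk ι)]
    exact h
  obtain ⟨e⟩ := (Cardinal.le_def _ _).1 h1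
  refine ⟨fun a => (e (a.1, ULift.up a.2)).1, fun a b hab => ?_, fun a => (e _).2⟩
  have := e.injective (Subtype.ext hab)
  simp only [Prod.mk.injEq, ULift.up.injEq] at this
  exact Prod.ext this.1 this.2

theorem closed_Onto {J X : Type u} [TopologicalSpace X] {f : J → X → ℝ} (r s : ℝ)
    (hf : ∀ i, Continuous (f i)) (i : J) (b : Bool) : IsClosed (Lev f r s i b) := by
  cases b
  · have : Lev f r s i false = {z | f i z ≤ r} := by ext z; simp [Lev]
    rw [this]
    exact isClosed_le (hf i) continuous_const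
  · have : Lev f r s i true = {z | s ≤ f i z} := by ext z; simp [Lev]
    rw [this]
    exact isClosed_le continuous_const (hf i)

theorem onto : Onto.{u} := by
  intro X J ι _ _ f T r s hι hT hrs hf hI
  classical
  obtain ⟨θ, hθ, hθT⟩ := emb_Onto hT
  let h : ℝ → unitInterval := fun t => projIcc 0 1 zero_le_one ((t - r) / (s - r))
  have hc : Continuous h := continuous_projIcc.comp (by fun_prop)
  have hsr : 0 < s - r := sub_pos.2 hrs
  have h0 : ∀ t, t ≤ r → (h t : ℝ) = 0 := fun t ht => by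
    simp only [h]
    rw [projIcc_of_le_left _ (div_nonpos_of_nonpos_of_nonneg (by linarith) hsr.le)]
  have h1 : ∀ t, s ≤ t → (h t : ℝ) = 1 := fun t ht => by
    simp only [h]
    rw [projIcc_of_right_le _ ((one_le_div hsr).2 (by linarith))]
  refine ⟨fun x k => projIcc 0 1 zero_le_one
    (∑' n : ℕ, (h (f (θ (k, n)) x) : ℝ) * ((2 : ℝ) ^ (n + 1))⁻¹), ?_, fun y => ?_⟩
  · refine continuous_pi fun k => continuous_projIcc.comp ?_
    refine continuous_tsum (u := fun n : ℕ => (1 / 2 : ℝ) ^ n) (fun n => ?_) summable_geometric_two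
      fun n x => ?_
    · exact (continuous_subtype_val.comp (hc.comp (hf _))).mul continuous_const
    · have a := (h (f (θ (k, n)) x)).2
      rw [Real.norm_eq_abs, abs_of_nonneg (mul_nonneg a.1 (by positivity)), one_div, inv_pow]
      refine (mul_le_of_le_one_left (by positivity) a.2).trans ?_
      exact inv_anti₀ (by positivity) (pow_le_pow_right₀ one_le_two (Nat.le_succ n))
  · have hd : ∀ k, ∃ d : ℕ → Fin 2, Real.ofDigits d = y k := fun k => by
      obtain ⟨d, -, hd⟩ := Real.ofDigits_SurjOn (b := 2) one_lt_two (y k).2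
      exact ⟨d, hd⟩
    choose d hd using hd
    let σ : J → Bool := Function.extend θ (fun a => decide (d a.1 a.2 = 1)) fun _ => false
    have hσ : ∀ a, σ (θ a) = decide (d a.1 a.2 = 1) := fun a => hθ.extend_apply _ _ a
    obtain ⟨x, -, hx⟩ := isCompact_univ.inter_iInter_nonempty
      (fun a : ι × ℕ => Lev f r s (θ a) (σ (θ a))) (fun a => closed_Onto r s hf _ _) fun G => by
        obtain ⟨w, hw⟩ := hI (G.image θ) σ fun i hi => by
          obtain ⟨a, -, rfl⟩ := Finset.mem_image.1 hi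
          exact hθT a
        exact ⟨w, mem_univ _, mem_iInter₂.2 fun a ha => hw _ (Finset.mem_image_of_mem θ ha)⟩
    refine ⟨x, funext fun k => ?_⟩
    have e : ∀ n, (h (f (θ (k, n)) x) : ℝ) = ((d k n : ℕ) : ℝ) := by
      intro n
      have hn := mem_iInter.1 hx (k, n)
      rw [hσ] at hn
      rcases Fin.exists_fin_two.1 ⟨d k n, rfl⟩ with e | e
      · rw [h0 _ (hn.2 (by simp [e])), e]; simp
      · rw [h1 _ (hn.1 (by simp [e])), e]; simp
    have e2 : ∑' n : ℕ, (h (f (θ (k, n)) x) : ℝ) * ((2 : ℝ) ^ (n + 1))⁻¹ = y k := by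
      rw [← hd k]
      simp only [e, Real.ofDigits, Real.ofDigitsTerm, Nat.cast_ofNat]
    simp only [e2]
    exact projIcc_val zero_le_one (y k)

theorem zp : ZP.{u} := by
  intro X Y _ _ _ _ φ
  refine ⟨fun f j b => ?_, fun hφ ⟨x0⟩ f b y h1 h2 => ?_, fun f f' j y x x' h h' => ?_⟩
  · have e : ZZ φ f j b = Prod.fst '' {q : Y × (Fin j → X) | Wit φ f j b q.1 q.2} :=
      Set.ext fun y => ⟨fun ⟨x, hx⟩ => ⟨(y, x), hx, rfl⟩, fun ⟨q, hq, e⟩ => ⟨q.2, e ▸ hq⟩⟩
    rw [e]
    refine isClosedMap_fst_of_compactSpace _ ?_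
    simp only [Wit, ofPred_forall]
    refine isClosed_iInter fun g => ?_
    refine isClosed_imp ?_ (IsClosed.inter ?_ ?_)
    · rw [ofPred_forall]
      refine isOpen_iInter_of_finite fun l => isOpen_lt ?_ continuous_const
      have hl : Continuous fun q : Y × (Fin j → X) => q.2 l :=
        (continuous_apply l).comp continuous_snd
      exact ((g.2.comp hl).sub (f.2.comp hl)).abs
    · exact isClosed_imp isOpen_const (isClosed_le continuous_const ((φ g).2.comp continuous_fst))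
    · exact isClosed_imp isOpen_const (isClosed_le ((φ g).2.comp continuous_fst) continuous_const)
  · have hc : Continuous fun g => (φ g).1 y := (continuous_eval_cp y).comp hφ
    have ho : IsOpen {g : Cp X | (b = true → 2 / 3 < (φ g).1 y) ∧
        (b = false → (φ g).1 y < 1 / 3)} := by
      cases b
      · simpa using isOpen_lt hc continuous_const
      · simpa using isOpen_lt continuous_const hc
    obtain ⟨B, δ, hδ, hB⟩ := cp_nhds (ho.mem_nhds (x := f) ⟨h1, h2⟩)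
    obtain ⟨n, hn⟩ := exists_nat_one_div_lt hδ
    refine ⟨max n B.toList.length, fun j hj => ⟨fun l => B.toList.getD l x0, fun g hg => ?_⟩⟩
    have := hB g fun z hz => by
      obtain ⟨i, hi, rfl⟩ := List.getElem_of_mem (Finset.mem_toList.2 hz)
      have a := hg ⟨i, hi.trans_le ((le_max_right _ _).trans hj)⟩
      simp only [List.getD_eq_getElem _ _ hi] at a
      exact a.trans ((Nat.one_div_le_one_div ((le_max_left _ _).trans hj)).trans_lt hn)
    exact ⟨fun k => (this.1 k).le, fun k => (this.2 k).le⟩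
  · classical
    by_contra hc
    push Not at hc
    have hp : (0 : ℝ) < 1 / ((j : ℝ) + 1) := Nat.one_div_pos_of_nat
    have e : (2 : ℝ) / ((j : ℝ) + 1) = 2 * (1 / ((j : ℝ) + 1)) := by ring
    obtain ⟨g, hg⟩ := interp ((finite_range x).union (finite_range x')) fun z =>
      if z ∈ range x then (if z ∈ range x' then (f.1 z + f'.1 z) / 2 else f.1 z) else f'.1 z
    have a := (h g fun l => by
      rw [hg _ (Or.inl ⟨l, rfl⟩), if_pos ⟨l, rfl⟩]
      split_ifs with k
      · obtain ⟨l', k⟩ := k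
        have := abs_lt.1 (hc l l' k.symm)
        rw [abs_lt]
        constructor <;> linarith [this.1, this.2]
      · simpa using hp).1 rfl
    have a' := (h' g fun l' => by
      rw [hg _ (Or.inr ⟨l', rfl⟩), if_pos (mem_range_self l')]
      split_ifs with k
      · obtain ⟨l, k⟩ := k
        have := abs_lt.1 (hc l l' k)
        rw [k] at this
        rw [abs_lt]
        constructor <;> linarith [this.1, this.2]
      · simpa using hp).2 rfl
    linarith

theorem bai (h1 : ZP.{u}) : Bai.{u} := by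
  classical
  intro X κ _ _ _ e φ D x x' hφ he hne hD
  obtain ⟨f, f0, f1, fI⟩ := exists_continuous_zero_one_of_isClosed (isClosed_singleton (x := x))
    (isClosed_singleton (x := x')) (disjoint_singleton.2 hne)
  let F : Cp X := ⟨f, f.continuous⟩
  have hψ : Continuous (φ F).1 := (φ F).2
  have e0 : (φ F).1 (e x) = 0 := (he F x).trans (f0 rfl)
  have e1 : (φ F).1 (e x') = 1 := (he F x').trans (f1 rfl)
  obtain ⟨B0, u0, hu0, hB0⟩ := isOpen_pi_iff.1 (isOpen_lt continuous_const hψ :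
    IsOpen {y | (2 / 3 : ℝ) < (φ F).1 y}) (e x') (by rw [mem_ofPred_eq, e1]; norm_num)
  let N : Finset κ := B0.filter fun k => k ∉ D
  let v : Bool → κ → unitInterval := fun b => if b then e x' else e x
  let s : Bool → (κ → unitInterval) → κ → unitInterval := fun b y k => if k ∈ N then v b k else y k
  have hs : ∀ b, Continuous (s b) := fun b => continuous_pi fun k => by
    by_cases hk : k ∈ N
    · simp only [s, if_pos hk]; exact continuous_const
    · simp only [s, if_neg hk]; exact continuous_apply k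
  have a0 : s false (e x) = e x := funext fun k => by simp [s, v]
  have a1 : (2 / 3 : ℝ) < (φ F).1 (s true (e x)) := by
    refine hB0 fun k hk => ?_
    have : s true (e x) k = e x' k := by
      by_cases h : k ∈ N
      · simp [s, v, h]
      · simp only [s, if_neg h]
        exact hD k (by_contra fun h' => h (Finset.mem_filter.2 ⟨hk, h'⟩))
    rw [this]
    exact (hu0 k hk).2
  have hN : N.Nonempty := by
    rw [Finset.nonempty_iff_ne_empty]
    intro h
    have : s true (e x) = e x := funext fun k => by simp [s, h]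
    rw [this, e0] at a1
    norm_num at a1
  let W : Set (κ → unitInterval) :=
    {y | (φ F).1 (s false y) < 1 / 3} ∩ {y | 2 / 3 < (φ F).1 (s true y)}
  have hW : IsOpen W := (isOpen_lt (hψ.comp (hs false)) continuous_const).inter
    (isOpen_lt continuous_const (hψ.comp (hs true)))
  have hx : e x ∈ W := ⟨by rw [mem_ofPred_eq, a0, e0]; norm_num, a1⟩
  obtain ⟨z1, z2, -⟩ := h1 X (κ → unitInterval) φ
  let C : Option ℕ → Set (κ → unitInterval) := fun o =>
    o.elim Wᶜ fun j => s false ⁻¹' ZZ φ F j false ∩ s true ⁻¹' ZZ φ F j true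
  have hC : ∀ o, IsClosed (C o) := by
    rintro (_ | j)
    · exact hW.isClosed_compl
    · exact ((z1 F j false).preimage (hs _)).inter ((z1 F j true).preimage (hs _))
  have hU : ⋃ o, C o = Set.univ := by
    refine eq_univ_of_forall fun y => mem_iUnion.2 ?_
    by_cases hy : y ∈ W
    · obtain ⟨j0, h0⟩ := z2 hφ ⟨x⟩ F false (s false y) (by simp) fun _ => hy.1
      obtain ⟨j1, h1⟩ := z2 hφ ⟨x⟩ F true (s true y) (fun _ => hy.2) (by simp)
      exact ⟨some (max j0 j1), h0 _ (le_max_left _ _), h1 _ (le_max_right _ _)⟩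
    · exact ⟨none, hy⟩
  obtain ⟨y0, hy0, hy1⟩ := (dense_iUnion_interior_of_closed hC hU).inter_open_nonempty W hW ⟨_, hx⟩
  obtain ⟨_ | j, hj⟩ := mem_iUnion.1 hy1
  · exact absurd hy0 (interior_subset hj)
  obtain ⟨I1, U, hU1, hI1⟩ := isOpen_pi_iff.1 isOpen_interior y0 hj
  have hp : ∀ k, ∃ n : ℕ, k ∈ I1 → denseSeq unitInterval n ∈ U k := fun k => by
    by_cases hk : k ∈ I1
    · obtain ⟨n, hn⟩ := (denseRange_denseSeq unitInterval).exists_mem_open (hU1 k hk).1
        ⟨_, (hU1 k hk).2⟩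
      exact ⟨n, fun _ => hn⟩
    · exact ⟨0, fun h => absurd h hk⟩
  choose p hp using hp
  refine ⟨N, fun k hk => (Finset.mem_filter.1 hk).2, hN, F, v, I1 \ N, p, j, fI,
    Finset.disjoint_sdiff, fun b y hy hy' => ?_⟩
  have h2 : (fun k => if k ∈ N then y0 k else y k) ∈ C (some j) := by
    refine interior_subset (hI1 fun k hk => ?_)
    by_cases h : k ∈ N
    · simp only [if_pos h]; exact (hU1 k hk).2
    · simp only [if_neg h]
      rw [hy' k (Finset.mem_sdiff.2 ⟨hk, h⟩)]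
      exact hp k hk
  have h3 : s b (fun k => if k ∈ N then y0 k else y k) = y := funext fun k => by
    by_cases h : k ∈ N
    · simp only [s, if_pos h]; exact (hy k h).symm
    · simp only [s, if_neg h]
  rw [← h3]
  cases b
  · exact h2.1
  · exact h2.2

theorem card_Wt {lam : Cardinal.{u}} {D : Type u} {β : Type} [Countable β] (h : ℵ₀ < lam)
    (hD : Cardinal.mk D < lam) : Cardinal.mk (List (D × β)) < lam := by
  refine (Cardinal.mk_list_le_max _).trans_lt (max_lt h ?_)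
  rw [Cardinal.mk_prod, Cardinal.lift_uzero]
  exact Cardinal.mul_lt_of_lt h.le hD ((Cardinal.lift_le_aleph0.2 Cardinal.mk_le_aleph0).trans_lt h)

theorem wt : Wt.{u} := by
  intro lam X κ _ _ e D he h hD hB
  by_contra hn
  have hi : Function.Injective fun (x : X) (k : D) => e x k := fun x x' q => by
    by_contra hx
    exact hn ⟨x, x', hx, fun k hk => congrFun q ⟨k, hk⟩⟩
  have hc : Continuous fun (x : X) (k : D) => e x k :=
    continuous_pi fun k => (continuous_apply k.1).comp he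
  have h1 := hB _ ((isTopologicalBasis_pi fun _ : D => isBasis_countableBasis unitInterval).isInducing
    (hc.isClosedEmbedding hi).isInducing)
  have := (countable_countableBasis unitInterval).to_subtype
  refine (card_Wt (β := countableBasis unitInterval) h hD).not_ge
    (h1.trans (Cardinal.mk_image_le.trans (le_trans (Cardinal.mk_le_mk_of_subset ?_)
      (Cardinal.mk_range_le (f := fun l : List (D × countableBasis unitInterval) =>
        {y : D → unitInterval | ∀ p ∈ l, y p.1 ∈ p.2.1})))))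
  rintro _ ⟨U, F, hU, rfl⟩
  refine ⟨F.attach.toList.map fun i => (i.1, ⟨U i.1, hU i.1 i.2⟩), ?_⟩
  ext y
  simp only [mem_ofPred_eq, List.forall_mem_map, Finset.mem_toList, Finset.mem_attach, mem_pi,
    Finset.mem_coe, forall_true_left]
  exact Subtype.forall

theorem fam_Pat {lam : Cardinal.{u}} {κ : Type u} {P : Finset κ → Prop} (h0 : ℵ₀ < lam)
    (h : ∀ D : Set κ, Cardinal.mk D < lam → ∃ N : Finset κ, (∀ k ∈ N, k ∉ D) ∧ N.Nonempty ∧ P N) :
    ∃ S : Set (Finset κ), lam ≤ Cardinal.mk S ∧ (∀ N ∈ S, P N) ∧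
      ∀ N ∈ S, ∀ N' ∈ S, ∀ k ∈ N, k ∈ N' → N = N' := by
  obtain ⟨S, hS⟩ := zorn_subset {S : Set (Finset κ) | (∀ N ∈ S, P N) ∧
      ∀ N ∈ S, ∀ N' ∈ S, ∀ k ∈ N, k ∈ N' → N = N'} (fun c hc hch => by
    refine ⟨⋃₀ c, ⟨fun N ⟨s, hs, hN⟩ => (hc hs).1 N hN, ?_⟩, fun s hs => subset_sUnion_of_mem hs⟩
    rintro N ⟨s, hs, hN⟩ N' ⟨s', hs', hN'⟩
    rcases hch.total hs hs' with e | e
    · exact (hc hs').2 N (e hN) N' hN'
    · exact (hc hs).2 N hN N' (e hN'))
  refine ⟨S, not_lt.1 fun hlt => ?_, hS.prop⟩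
  obtain ⟨N, h1, ⟨k, hk⟩, h2⟩ := h (⋃ N ∈ S, (N : Set κ)) ((mk_biUnion_le _ _).trans_lt
    (mul_lt_of_lt h0.le hlt ((ciSup_le' fun x => (finset_card_lt_aleph0 _).le).trans_lt h0)))
  have h3 : ∀ N' ∈ S, ∀ a ∈ N, a ∉ N' := fun N' hN' a ha ha' => h1 a ha (mem_biUnion hN' ha')
  refine h3 N (hS.mem_of_prop_insert ⟨?_, ?_⟩) k hk hk
  · rintro A (rfl | hA)
    exacts [h2, hS.prop.1 A hA]
  · rintro A (rfl | hA) A' (rfl | hA') a ha ha'
    exacts [rfl, (h3 A' hA' a ha ha').elim, (h3 A hA a ha' ha).elim, hS.prop.2 A hA A' hA' a ha ha']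

theorem pat (h1 : Fre.{u}) : Pat.{u} := by
  classical
  intro lam X κ _ φ hc h
  obtain ⟨S, s1, s2, s3⟩ := fam_Pat (hc.trans_le (Ordinal.cof_ord_le lam)) h
  have h2 : ∀ N : Finset κ, ∃ (f : Cp X) (v : Bool → κ → unitInterval) (B : Finset κ) (p : κ → ℕ)
      (j : ℕ), (∀ z, f.1 z ∈ Icc (0 : ℝ) 1) ∧ (N ∈ S → Disjoint N B ∧
        ∀ (b : Bool) (y : κ → unitInterval), (∀ k ∈ N, y k = v b k) →
          (∀ k ∈ B, y k = denseSeq unitInterval (p k)) → y ∈ ZZ φ f j b) := by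
    intro N
    by_cases hN : N ∈ S
    · obtain ⟨f, v, B, p, j, a, b⟩ := s2 N hN
      exact ⟨f, v, B, p, j, a, fun _ => b⟩
    · exact ⟨⟨fun _ => 0, continuous_const⟩, fun _ _ => 0, ∅, 0, 0,
        fun _ => ⟨le_rfl, zero_le_one⟩, fun k => absurd k hN⟩
  choose f v B p j a1 a2 using h2
  obtain ⟨j0, S1, b1, b2, b3⟩ := pig hc s1 j
  have hF : ∀ i, {N | N ∈ S ∧ ∃ k ∈ B i, k ∈ N}.Finite := fun i =>
    ((B i).finite_toSet.biUnion (t := fun k => {N | N ∈ S ∧ k ∈ N}) fun k _ =>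
      Set.Subsingleton.finite fun N hN N' hN' => s3 N hN.1 N' hN'.1 k hN.2 hN'.2).subset
      fun N ⟨e, k, hk, hN⟩ => mem_biUnion hk ⟨e, hN⟩
  obtain ⟨T, t1, t2, t3, t4⟩ := h1 lam _ κ S1 B p (fun i => (hF i).toFinset) hc b2 fun i hi k => by
    obtain ⟨-, a, ha, ha'⟩ := (hF i).mem_toFinset.1 k
    exact Finset.disjoint_left.1 (a2 i (b1 hi)).1 ha' ha
  refine ⟨T, f, j0, t2, a1, fun σ => ⟨fun k => if e : ∃ i ∈ T, k ∈ i then
    v e.choose (σ e.choose) k else if e : ∃ i ∈ T, k ∈ B i then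
      denseSeq unitInterval (p e.choose k) else 0, fun i hi => ?_⟩⟩
  rw [← b3 i (t1 hi)]
  refine (a2 i (b1 (t1 hi))).2 _ _ (fun k hk => ?_) fun k hk => ?_
  · have e : ∃ i ∈ T, k ∈ i := ⟨i, hi, hk⟩
    rw [dif_pos e, s3 _ (b1 (t1 e.choose_spec.1)) i (b1 (t1 hi)) k e.choose_spec.2 hk]
  · have e : ∃ i ∈ T, k ∈ B i := ⟨i, hi, hk⟩
    rw [dif_neg fun ⟨i', c1, c2⟩ => t4 i' c1 i hi
      ((hF i).mem_toFinset.2 ⟨b1 (t1 c1), k, hk, c2⟩), dif_pos e,
      t3 _ e.choose_spec.1 i hi k e.choose_spec.2 hk]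

theorem exE : ExE.{u} := by
  classical
  intro ι h0 hc
  obtain ⟨e⟩ : Nonempty (ι ≃ (Cardinal.mk ι).ord.ToType) :=
    Cardinal.eq.1 (Cardinal.mk_ord_toType _).symm
  obtain ⟨s, hs, hs'⟩ := Order.exists_cof_eq (Cardinal.mk ι).ord.ToType
  rw [Ordinal.cof_toType] at hs'
  have hcount : s.Countable := by
    rw [← Cardinal.le_aleph0_iff_set_countable, hs']
    exact not_lt.1 hc
  have hne : Nonempty ι := by
    rw [← Cardinal.mk_ne_zero_iff]
    exact (Cardinal.aleph0_pos.trans h0).ne'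
  obtain ⟨k0⟩ := hne
  obtain ⟨x, hx⟩ := hcount.exists_eq_range (by
    obtain ⟨b, hb, -⟩ := hs (e k0)
    exact ⟨b, hb⟩)
  have hex : ∀ k, ∃ n, e k ≤ x n := fun k => by
    obtain ⟨b, hb, h⟩ := hs (e k)
    rw [hx] at hb
    obtain ⟨n, rfl⟩ := hb
    exact ⟨n, h⟩
  have hI : ∀ n, Cardinal.mk {k | e k ≤ x n} < Cardinal.mk ι := fun n => by
    have h1 : Cardinal.mk {k | e k ≤ x n} ≤ Cardinal.mk (Set.Iic (x n)) :=
      Cardinal.mk_preimage_of_injective e (Set.Iic (x n)) e.injective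
    have h2 : Cardinal.mk (Set.Iic (x n)) ≤ Cardinal.mk (Set.Iio (x n)) + 1 := by
      rw [← Set.Iio_insert]
      exact Cardinal.mk_insert_le
    exact (h1.trans h2).trans_lt (Cardinal.add_lt_of_lt h0.le
      (Cardinal.mk_Iio_toType_ord_lt _) (Cardinal.one_lt_aleph0.trans h0))
  refine ⟨fun k => Nat.find (hex k), fun n => ?_⟩
  induction n with
  | zero => simpa using Cardinal.aleph0_pos.trans h0
  | succ n ih =>
    have h1 : {k | Nat.find (hex k) < n + 1} ⊆ {k | Nat.find (hex k) < n} ∪ {k | e k ≤ x n} := by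
      intro k hk
      rcases Nat.lt_succ_iff_lt_or_eq.1 hk with h | h
      · exact Or.inl h
      · right
        have := Nat.find_spec (hex k)
        rwa [h] at this
    exact ((Cardinal.mk_le_mk_of_subset h1).trans (Cardinal.mk_union_le _ _)).trans_lt
      (Cardinal.add_lt_of_lt h0.le ih (hI n))

theorem bump_cont_ExA (n : ℕ) : Continuous (bump n) := by
  unfold bump
  fun_prop

theorem ext_ExA {X Y : Type u} [TopologicalSpace X] [CompactSpace X] [TopologicalSpace Y]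
    [T35Space Y] {e : X → Y} (hc : Continuous e) (hi : Function.Injective e)
    {g : X → unitInterval} (hg : Continuous g) :
    ∃ E : Y → unitInterval, Continuous E ∧ ∀ x, E (e x) = g x := by
  have h1 : Topology.IsClosedEmbedding (stoneCechUnit ∘ e : X → StoneCech Y) :=
    (continuous_stoneCechUnit.comp hc).isClosedEmbedding
      (injective_stoneCechUnit_of_t35Space.comp hi)
  obtain ⟨G, hG⟩ := ContinuousMap.exists_extension' h1
    (⟨fun x => (g x : ℝ), continuous_subtype_val.comp hg⟩ : C(X, ℝ))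
  refine ⟨fun y => projIcc 0 1 zero_le_one (G (stoneCechUnit y)),
    continuous_projIcc.comp (G.continuous.comp continuous_stoneCechUnit), fun x => ?_⟩
  have h2 : G (stoneCechUnit (e x)) = g x := congrFun hG x
  simp only [h2, projIcc_val]

theorem exA : ExA.{u} := by
  intro ι c
  have hcl : IsClosed (Ex c) := by
    simp only [Ex, ofPred_forall]
    exact isClosed_iInter fun k => isClosed_le
      (continuous_subtype_val.comp (continuous_apply _))
      ((bump_cont_ExA _).comp (continuous_subtype_val.comp (continuous_apply _)))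
  refine ⟨hcl, fun Y _ _ e he => ?_⟩
  have hK : CompactSpace (Ex c) := isCompact_iff_compactSpace.1 hcl.isCompact
  choose E hE1 hE2 using fun o : Option ι => ext_ExA he.continuous he.injective
    (g := fun x : Ex c => x.1 o) ((continuous_apply o).comp continuous_subtype_val)
  let r : Y → Option ι → unitInterval := fun y o => match o with
    | none => E none y
    | some k => ⟨min (E (some k) y) (bump (c k) (E none y)),
        le_min (E (some k) y).2.1 (le_max_left _ _), (min_le_left _ _).trans (E (some k) y).2.2⟩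
  have r1 : ∀ y, r y ∈ Ex c := fun y k => min_le_right _ _
  have r2 : Continuous r := continuous_pi fun o => match o with
    | none => hE1 none
    | some k => ((continuous_subtype_val.comp (hE1 (some k))).min
        ((bump_cont_ExA _).comp (continuous_subtype_val.comp (hE1 none)))).subtype_mk _
  have r3 : ∀ x : Ex c, (⟨r (e x), r1 _⟩ : Ex c) = x := fun x => Subtype.ext (funext fun o =>
    match o with
    | none => hE2 none x
    | some k => Subtype.ext (by
        show min (E (some k) (e x) : ℝ) (bump (c k) (E none (e x))) = x.1 (some k)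
        rw [hE2, hE2]
        exact min_eq_left (x.2 k)))
  refine ⟨fun f => ⟨fun y => f.1 ⟨r y, r1 y⟩, f.2.comp (r2.subtype_mk _)⟩,
    (continuous_pi fun y => continuous_eval_cp _).subtype_mk _, fun f x => ?_⟩
  show f.1 ⟨r (e x), r1 _⟩ = f.1 x
  rw [r3]

/-- the top of the bump -/
noncomputable def tt_ExB (n : ℕ) : unitInterval :=
  ⟨1 / ((n : ℝ) + 1) / 2, by positivity, by
    have h : 1 / ((n : ℝ) + 1) ≤ 1 := by
      rw [div_le_one (by positivity)]
      linarith [Nat.cast_nonneg (α := ℝ) n]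
    linarith⟩

theorem tt_pos_ExB (n : ℕ) : (0 : ℝ) < tt_ExB n := by
  show (0 : ℝ) < 1 / ((n : ℝ) + 1) / 2
  positivity

theorem tt_le_ExB (n : ℕ) : (tt_ExB n : ℝ) ≤ bump n (tt_ExB n) := by
  refine le_max_of_le_right (le_min le_rfl ?_)
  show 1 / ((n : ℝ) + 1) / 2 ≤ 1 / ((n : ℝ) + 1) - 1 / ((n : ℝ) + 1) / 2
  linarith

open Classical in
/-- points with at most two nonzero coordinates -/
noncomputable def pt_ExB {ι : Type u} (n : ℕ) (i₀ : Option ι) : Option ι → unitInterval :=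
  fun i => if i = none ∨ i = i₀ then tt_ExB n else 0

theorem pt_mem_ExB {ι : Type u} (c : ι → ℕ) (n : ℕ) (i₀ : Option ι)
    (h : ∀ k, some k = i₀ → c k = n) : pt_ExB n i₀ ∈ Ex c := by
  intro k
  have e : pt_ExB n i₀ none = tt_ExB n := if_pos (Or.inl rfl)
  rw [e]
  by_cases hk : some k = i₀
  · have e' : pt_ExB n i₀ (some k) = tt_ExB n := if_pos (Or.inr hk)
    rw [e', h k hk]
    exact tt_le_ExB n
  · have e' : pt_ExB n i₀ (some k) = 0 := if_neg (by simpa using hk)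
    rw [e']
    exact le_max_left _ _

theorem box_ExB {κ : Type u} {S : Set (κ → unitInterval)} {U : Set S} (hU : IsOpen U) {a : S}
    (ha : a ∈ U) : ∃ F : Finset κ, ∀ y : S, (∀ i ∈ F, y.1 i = a.1 i) → y ∈ U := by
  obtain ⟨V, hV, rfl⟩ := isOpen_induced_iff.1 hU
  obtain ⟨F, w, h1, h2⟩ := isOpen_pi_iff.1 hV a.1 ha
  exact ⟨F, fun y hy => h2 fun i hi => by rw [hy i hi]; exact (h1 i hi).2⟩

theorem exB : ExB.{u} := by
  intro ι c hι B hB
  let a : ℕ → Ex c := fun n => ⟨pt_ExB n none, pt_mem_ExB c n none fun k hk => by cases hk⟩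
  have hO : ∀ k : ι, IsOpen {y : Ex c | (y.1 (some k) : ℝ) < tt_ExB (c k)} := fun k =>
    isOpen_lt (continuous_subtype_val.comp ((continuous_apply (some k)).comp
      continuous_subtype_val)) continuous_const
  have haO : ∀ k : ι, a (c k) ∈ {y : Ex c | (y.1 (some k) : ℝ) < tt_ExB (c k)} := fun k => by
    have e : pt_ExB (c k) none (some k) = 0 := if_neg (by simp)
    show (pt_ExB (c k) none (some k) : ℝ) < _
    rw [e]
    exact tt_pos_ExB _
  choose U hU1 hU2 hU3 using fun k => hB.exists_subset_of_mem_open (haO k) (hO k)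
  let g : ι → B × ULift.{u} ℕ := fun k => (⟨U k, hU1 k⟩, ULift.up (c k))
  have hfin : ∀ b, (g ⁻¹' {b}).Finite := by
    intro b
    rcases (g ⁻¹' {b}).eq_empty_or_nonempty with h | ⟨k₀, hk₀⟩
    · rw [h]
      exact finite_empty
    obtain ⟨F, hF⟩ := box_ExB (hB.isOpen (hU1 k₀)) (hU2 k₀)
    refine (F.finite_toSet.preimage (Option.some_injective ι).injOn).subset fun k hk => ?_
    have e : g k = g k₀ := (mem_singleton_iff.1 hk).trans (mem_singleton_iff.1 hk₀).symm
    have e1 : U k = U k₀ := congrArg (fun z : B × ULift.{u} ℕ => z.1.1) e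
    have e2 : c k = c k₀ := congrArg (fun z : B × ULift.{u} ℕ => z.2.down) e
    by_contra hn
    have h1 := hF ⟨pt_ExB (c k₀) (some k), pt_mem_ExB c _ _ fun k' hk' => by
      rw [Option.some.inj hk', e2]⟩ fun i hi => by
        have hik : i ≠ some k := fun h => hn (by rw [h] at hi; exact hi)
        show pt_ExB (c k₀) (some k) i = pt_ExB (c k₀) none i
        simp only [pt_ExB, hik, or_false, or_self]
    rw [← e1] at h1
    have h2 : (pt_ExB (c k₀) (some k) (some k) : ℝ) < tt_ExB (c k) := hU3 k h1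
    have e3 : pt_ExB (c k₀) (some k) (some k) = tt_ExB (c k₀) := if_pos (Or.inr rfl)
    rw [e3, e2] at h2
    exact lt_irrefl _ h2
  have h1 := Cardinal.mk_le_mk_mul_of_mk_preimage_le (c := ℵ₀) g
    fun b => (hfin b).lt_aleph0.le
  by_contra hlt
  have hlt := not_le.1 hlt
  have h2 : Cardinal.mk (B × ULift.{u} ℕ) = Cardinal.mk B * ℵ₀ := by simp
  rw [h2] at h1
  exact absurd h1 (not_le.2 (Cardinal.mul_lt_of_lt hι.le (Cardinal.mul_lt_of_lt hι.le hlt hι) hι))

theorem exC : ExC.{u} := by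
  intro X ι _ _ g hι hg ⟨y0, hy0⟩ B hB
  classical
  obtain ⟨F, U, hU, hF⟩ := isOpen_pi_iff.1 isOpen_interior y0 hy0
  have h1 : ∀ y : ι → unitInterval, (∀ a ∈ F, y a = y0 a) → y ∈ range g := fun y hy =>
    interior_subset (hF fun a ha => by rw [hy a ha]; exact (hU a ha).2)
  have h2 : ∀ k : ι, ∃ s : Finset B, (∀ x, g x k = 0 → ∃ b ∈ s, x ∈ b.1) ∧
      ∀ b ∈ s, ∀ x ∈ b.1, g x k ≠ 1 := by
    intro k
    have hc : Continuous fun x => g x k := (continuous_apply k).comp hg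
    have hK : IsCompact {x | g x k = 0} := (isClosed_eq hc continuous_const).isCompact
    have hO : IsOpen {x | g x k ≠ 1} := isOpen_ne_fun hc continuous_const
    obtain ⟨t, ht⟩ := hK.elim_finite_subcover
      (fun b : {b : B // b.1 ⊆ {x | g x k ≠ 1}} => b.1.1) (fun b => hB.isOpen b.1.2) fun x hx => by
      obtain ⟨v, hv, hx', hs⟩ := hB.exists_subset_of_mem_open
        (show x ∈ {x | g x k ≠ 1} from fun h => zero_ne_one (hx.symm.trans h)) hO
      exact mem_iUnion.2 ⟨⟨⟨v, hv⟩, hs⟩, hx'⟩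
    refine ⟨t.image Subtype.val, fun x hx => ?_, fun b hb x hx => ?_⟩
    · obtain ⟨b, hb, hx'⟩ := mem_iUnion₂.1 (ht hx)
      exact ⟨b.1, Finset.mem_image_of_mem _ hb, hx'⟩
    · obtain ⟨c, -, rfl⟩ := Finset.mem_image.1 hb
      exact c.2 hx
  choose s hs1 hs2 using h2
  have h3 : Function.Injective fun k : ((F : Set ι)ᶜ : Set ι) => s k.1 := by
    intro k k' h
    by_contra hne
    have hne' : k.1 ≠ k'.1 := fun e => hne (Subtype.ext e)
    obtain ⟨x, hx⟩ := h1 (Function.update (Function.update y0 k'.1 1) k.1 0) fun a ha => by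
      have a1 : a ≠ k.1 := fun e => k.2 (by rw [← e]; exact ha)
      have a2 : a ≠ k'.1 := fun e => k'.2 (by rw [← e]; exact ha)
      rw [Function.update_of_ne a1, Function.update_of_ne a2]
    obtain ⟨b, hb, hxb⟩ := hs1 k.1 x (by rw [hx, Function.update_self])
    have h' : s k.1 = s k'.1 := h
    refine hs2 k'.1 b (h' ▸ hb) x hxb ?_
    rw [hx, Function.update_of_ne hne'.symm, Function.update_self]
  have h4 := Cardinal.mk_le_of_injective h3
  have : Infinite ι := Cardinal.infinite_iff.2 hι.le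
  have h5 : Cardinal.mk ι ≤ Cardinal.mk ((F : Set ι)ᶜ : Set ι) :=
    (Cardinal.mk_compl_finset_of_infinite F).ge
  by_contra hlt
  have h6 : Cardinal.mk (Finset B) ≤ max (Cardinal.mk B) ℵ₀ := by
    rcases finite_or_infinite B with h | h
    · exact (Cardinal.mk_le_aleph0).trans (le_max_right _ _)
    · rw [Cardinal.mk_finset_of_infinite]
      exact le_max_left _ _
  exact absurd (h5.trans (h4.trans h6)) (not_le.2 (max_lt (not_le.1 hlt) hι))

/-- The closed pieces of the example. -/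
def X_ExD {ι : Type u} (c : ι → ℕ) (m : ℕ) : Set (Ex c) :=
  {y | 1 / ((m : ℝ) + 1) ≤ (y.1 none : ℝ) ∨ (y.1 none : ℝ) = 0}

theorem closed_ExD {ι : Type u} (c : ι → ℕ) (m : ℕ) : IsClosed (X_ExD c m) := by
  have h : Continuous fun y : Ex c => (y.1 none : ℝ) :=
    continuous_subtype_val.comp ((continuous_apply none).comp continuous_subtype_val)
  exact (isClosed_le continuous_const h).union (isClosed_eq h continuous_const)

theorem cover_ExD {ι : Type u} (c : ι → ℕ) (y : Ex c) : ∃ m, y ∈ X_ExD c m := by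
  rcases (y.1 none).2.1.eq_or_lt with h | h
  · exact ⟨0, Or.inr h.symm⟩
  · obtain ⟨m, hm⟩ := exists_nat_one_div_lt h
    exact ⟨m, Or.inl hm.le⟩

theorem zero_ExD {ι : Type u} {c : ι → ℕ} {m : ℕ} {y : Ex c} (hy : y ∈ X_ExD c m) {k : ι}
    (hk : m ≤ c k) : y.1 (some k) = 0 := by
  refine Subtype.ext (le_antisymm ((y.2 k).trans (max_le le_rfl ?_)) (y.1 (some k)).2.1)
  rcases hy with h | h
  · refine (min_le_right _ _).trans (sub_nonpos.2 (le_trans ?_ h))
    exact Nat.one_div_le_one_div hk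
  · exact (min_le_left _ _).trans h.le

theorem exD (h1 : ExA.{u}) (h2 : ExC.{u}) (h3 : Wt.{u}) : ExD.{u} := by
  intro ι c hι hc g hg hs
  have : CompactSpace (Ex c) := isCompact_iff_compactSpace.1 (h1 ι c).1.isCompact
  obtain ⟨m, hm⟩ := nonempty_interior_of_iUnion_of_closed (f := fun m => g '' X_ExD c m)
    (fun m => ((closed_ExD c m).isCompact.image hg).isClosed) (eq_univ_of_forall fun z => by
      obtain ⟨y, rfl⟩ := hs z
      obtain ⟨m, hm⟩ := cover_ExD c y
      exact mem_iUnion.2 ⟨m, y, hm, rfl⟩)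
  have : CompactSpace (X_ExD c m) := isCompact_iff_compactSpace.1 (closed_ExD c m).isCompact
  obtain ⟨x, x', hne, he⟩ := h3 (Cardinal.mk ι) (X_ExD c m) (Option ι) (fun y => y.1.1)
    (insert none (some '' {k | c k < m})) (by fun_prop) hι
    (Cardinal.mk_insert_le.trans_lt (Cardinal.add_lt_of_lt hι.le
      (Cardinal.mk_image_le.trans_lt (hc m)) (Cardinal.one_lt_aleph0.trans hι)))
    (h2 (X_ExD c m) ι (fun y => g y.1) hι (by fun_prop) (by rwa [image_eq_range] at hm))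
  refine hne (Subtype.ext (Subtype.ext (funext fun k => ?_)))
  cases k with
  | none => exact he _ (mem_insert _ _)
  | some k =>
    rcases lt_or_ge (c k) m with h | h
    · exact he _ (mem_insert_of_mem _ ⟨k, h, rfl⟩)
    · rw [zero_ExD x.2 h, zero_ExD x'.2 h]

/-- A compact space t-embedded in a cube maps onto every cube of uncountable cofinality below
its weight. -/
theorem cube_of_emb (h1 : Wt.{u}) (h2 : Bai.{u}) (h3 : Pat.{u}) (h4 : ZP.{u}) (h5 : Tup.{u})
    (h6 : Sep.{u}) (h7 : Onto.{u}) {X κ ι : Type u} [TopologicalSpace X] [CompactSpace X]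
    [T2Space X] {e : X → κ → unitInterval} (hec : Continuous e) (he : IsTEmbedded e)
    (hc : ℵ₀ < (Cardinal.mk ι).ord.cof)
    (hw : ∀ B : Set (Set X), IsTopologicalBasis B → Cardinal.mk ι ≤ Cardinal.mk B) :
    ∃ g : X → ι → unitInterval, Continuous g ∧ Function.Surjective g := by
  obtain ⟨φ, hφ, hφe⟩ := he
  have hl : ℵ₀ < Cardinal.mk ι := hc.trans_le (Ordinal.cof_ord_le _)
  have hne : Nonempty X := by
    obtain ⟨x, -⟩ := h1 (Cardinal.mk ι) X κ e ∅ hec hl
      (by simpa using Cardinal.aleph0_pos.trans hl) hw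
    exact ⟨x⟩
  obtain ⟨S, f, j, hS, hf, hpat⟩ := h3 (Cardinal.mk ι) X κ φ hc (fun D hD => by
    obtain ⟨x, x', hxx, hD'⟩ := h1 (Cardinal.mk ι) X κ e D hec hl hD hw
    exact h2 X κ e φ D x x' hφ hφe hxx hD')
  obtain ⟨N, hN⟩ := h5 j
  obtain ⟨T, -, hT, r, s, hrs, hind⟩ := h6 (Cardinal.mk ι) (Finset κ) X S (fun i => (f i).1) N
    (1 / ((j : ℝ) + 1)) hc hS Nat.one_div_pos_of_nat hf (fun G σ hG => by
      classical
      obtain ⟨y, hy⟩ := hpat σ
      have hx : ∀ i, ∃ x : Fin j → X, i ∈ S → Wit φ (f i) j (σ i) y x := by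
        intro i
        by_cases hi : i ∈ S
        · obtain ⟨x, hx⟩ := hy i hi
          exact ⟨x, fun _ => hx⟩
        · exact ⟨fun _ => Classical.arbitrary X, fun h => absurd h hi⟩
      choose x hx using hx
      refine hN X (Finset κ) (fun i => (f i).1) σ (G : Set (Finset κ)) x hne hf ?_
      intro a ha b hb hσa hσb
      have k1 := hx a (hG ha)
      have k2 := hx b (hG hb)
      rw [hσa] at k1
      rw [hσb] at k2
      exact (h4 X (κ → unitInterval) φ).2.2 _ _ j y _ _ k1 k2)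
  exact h7 X (Finset κ) ι (fun i => (f i).1) T r s
    (Cardinal.infinite_iff.2 hl.le) hT hrs (fun i => (f i).2) hind

/-- A t-extral space is t-embedded in a cube by a continuous map. -/
theorem exists_emb (X : Type u) [TopologicalSpace X] [T35Space X] (h : TExtral X) :
    ∃ e : X → C(X, unitInterval) → unitInterval, Continuous e ∧ IsTEmbedded e := by
  haveI := compactSpace_of_tExtral h
  let e : X → C(X, unitInterval) → unitInterval := fun x f => f x
  have hec : Continuous e := continuous_pi fun f => f.continuous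
  have hei : Function.Injective e := by
    intro x y hxy
    by_contra hne
    obtain ⟨f, hf0, hf1, hf⟩ := exists_continuous_zero_one_of_isClosed
      (isClosed_singleton (x := x)) (isClosed_singleton (x := y)) (disjoint_singleton.2 hne)
    have := congrArg Subtype.val (congrFun hxy ⟨fun z => ⟨f z, hf z⟩, by fun_prop⟩)
    change f x = f y at this
    rw [hf0 (mem_singleton x), hf1 (mem_singleton y)] at this
    simp at this
  exact ⟨e, hec, h _ e (hec.isClosedEmbedding hei)⟩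

theorem cube_of_tExtral (h1 : Wt.{u}) (h2 : Bai.{u}) (h3 : Pat.{u}) (h4 : ZP.{u}) (h5 : Tup.{u})
    (h6 : Sep.{u}) (h7 : Onto.{u}) (X ι : Type u) [TopologicalSpace X] [T35Space X]
    (h : TExtral X) (hc : ℵ₀ < (Cardinal.mk ι).ord.cof)
    (hw : ∀ B : Set (Set X), IsTopologicalBasis B → Cardinal.mk ι ≤ Cardinal.mk B) :
    ∃ g : X → ι → unitInterval, Continuous g ∧ Function.Surjective g := by
  haveI := compactSpace_of_tExtral h
  obtain ⟨e, hec, he⟩ := exists_emb X h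
  exact cube_of_emb h1 h2 h3 h4 h5 h6 h7 hec he hc hw

theorem sharp (h1 : ExA.{u}) (h2 : ExB.{u}) (h3 : ExD.{u}) (h4 : ExE.{u}) (ι : Type u)
    (hι : ℵ₀ < Cardinal.mk ι)
    (h : ∀ (X : Type u) [TopologicalSpace X] [T35Space X], TExtral X →
      (∀ B : Set (Set X), IsTopologicalBasis B → Cardinal.mk ι ≤ Cardinal.mk B) →
      ∃ g : X → ι → unitInterval, Continuous g ∧ Function.Surjective g) :
    ℵ₀ < (Cardinal.mk ι).ord.cof := by
  by_contra hc
  obtain ⟨c, hc'⟩ := h4 ι hι hc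
  obtain ⟨g, hg, hs⟩ := h (Ex c) (h1 ι c).2 (h2 ι c hι)
  exact h3 ι c hι hc' g hg hs

/-- Main theorem. -/
theorem cube_iff (ι : Type u) (hι : ℵ₀ < Cardinal.mk ι) :
    (∀ (X : Type u) [TopologicalSpace X] [T35Space X], TExtral X →
      (∀ B : Set (Set X), IsTopologicalBasis B → Cardinal.mk ι ≤ Cardinal.mk B) →
      ∃ g : X → ι → unitInterval, Continuous g ∧ Function.Surjective g) ↔
    ℵ₀ < (Cardinal.mk ι).ord.cof := by
  have hF : Fre.{u} := fre (cal (calR dlt) cofS)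
  exact ⟨sharp exA exB (exD exA exC wt) exE ι hι, fun hc X _ _ h hw =>
    cube_of_tExtral wt (bai zp) (pat hF) zp (tup ker) (sep (tal (tal1 hF))) onto X ι h hc hw⟩

end Pool.Agent.MP_160dec_gt.Cube
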