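import Mathlib

namespace Pool.Agent.MP_160dec_gt

universe u v

/-- `Cp Z`: the continuous real-valued functions on `Z`, with the topology of a subspace of the
product `Z → ℝ` (pointwise convergence). -/
abbrev Cp (Z : Type u) [TopologicalSpace Z] : Type u := {f : Z → ℝ // Continuous f}

/-- `Y`, sitting in `X` through `e`, is t-embedded: there is a continuous extender
`Cp Y → Cp X` (no linearity required). -/
def IsTEmbedded {Y : Type u} {X : Type v} [TopologicalSpace Y] [TopologicalSpace X]
    (e : Y → X) : Prop :=
  ∃ φ : Cp Y → Cp X, Continuous φ ∧ ∀ (f : Cp Y) (y : Y), (φ f).1 (e y) = f.1 y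

/-- `X` is t-extendial: every closed subspace of `X` is t-embedded in `X`. -/
def TExtendial (X : Type u) [TopologicalSpace X] : Prop :=
  ∀ Y : Set X, IsClosed Y → IsTEmbedded (Subtype.val : Y → X)

/-- `X` is t-extral: whenever `X` is a closed subspace of a Tychonoff space `Y`,
it is t-embedded in `Y`. -/
def TExtral (X : Type u) [TopologicalSpace X] : Prop :=
  ∀ (Y : Type u) [TopologicalSpace Y] [T35Space Y] (e : X → Y),
    Topology.IsClosedEmbedding e → IsTEmbedded e

end Pool.Agent.MP_160dec_gt
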