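import Mathlib

/-! Combinatorial set theory: pigeonhole, Delta-system lemma, recursion of length omega one. -/

namespace Pool.Agent.MP_160dec_gt

open Set

theorem exists_uncountable_fiber {ι β : Type*} [Countable β] {S : Set ι} (hS : ¬ S.Countable)
    (P : β → ι → Prop) (h : ∀ i ∈ S, ∃ b, P b i) : ∃ b, ¬ {i | i ∈ S ∧ P b i}.Countable := by
  by_contra hc
  push Not at hc
  apply hS
  refine (countable_iUnion hc).mono ?_
  intro i hi
  obtain ⟨b, hb⟩ := h i hi
  exact mem_iUnion.2 ⟨b, hi, hb⟩

theorem delta_system_card {ι α : Type*} [DecidableEq α] (n : ℕ) :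
    ∀ (S : Set ι) (_ : ¬ S.Countable) (B : ι → Finset α) (_ : ∀ i ∈ S, (B i).card = n),
      ∃ S' ⊆ S, ¬ S'.Countable ∧ ∃ R : Finset α, (∀ i ∈ S', R ⊆ B i) ∧
        S'.Pairwise (fun i j => Disjoint (B i \ R) (B j \ R)) := by
  induction n with
  | zero =>
    intro S hS B hB
    refine ⟨S, subset_rfl, hS, ∅, fun i _ => Finset.empty_subset _, ?_⟩
    intro i hi j _ _
    have : B i = ∅ := Finset.card_eq_zero.1 (hB i hi)
    simp [this]
  | succ n ih =>
    intro S hS B hB
    by_cases h : ∃ a, ¬ {i | i ∈ S ∧ a ∈ B i}.Countable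
    · obtain ⟨a, ha⟩ := h
      obtain ⟨S', hS'sub, hS', R, hR, hP⟩ := ih _ ha (fun i => (B i).erase a) (by
        intro i hi
        rw [Finset.card_erase_of_mem hi.2, hB i hi.1]
        simp)
      refine ⟨S', fun i hi => (hS'sub hi).1, hS', insert a R, ?_, ?_⟩
      · intro i hi
        exact Finset.insert_subset (hS'sub hi).2 ((hR i hi).trans (Finset.erase_subset _ _))
      · intro i hi j hj hij
        have := hP hi hj hij
        have e : ∀ k, B k \ insert a R = (B k).erase a \ R := by
          intro k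
          ext x
          simp only [Finset.mem_sdiff, Finset.mem_insert, Finset.mem_erase]
          tauto
        rw [e, e]
        exact this
    · push Not at h
      obtain ⟨M, hM⟩ := zorn_subset
        {M : Set ι | M ⊆ S ∧ M.Pairwise (fun i j => Disjoint (B i) (B j))} (by
          intro c hc hchain
          refine ⟨⋃₀ c, ⟨sUnion_subset fun t ht => (hc ht).1, ?_⟩, fun s hs => subset_sUnion_of_mem hs⟩
          intro i hi j hj hij
          obtain ⟨s, hs, his⟩ := hi
          obtain ⟨t, ht, hjt⟩ := hj
          rcases hchain.total hs ht with hst | hts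
          · exact (hc ht).2 (hst his) hjt hij
          · exact (hc hs).2 his (hts hjt) hij)
      refine ⟨M, hM.prop.1, ?_, ∅, fun i _ => Finset.empty_subset _, ?_⟩
      · intro hMc
        apply hS
        have hU : (⋃ i ∈ M, ⋃ a ∈ (B i : Set α), {j | j ∈ S ∧ a ∈ B j}).Countable :=
          hMc.biUnion fun i _ => (B i).countable_toSet.biUnion fun a _ => h a
        refine (hMc.union hU).mono ?_
        intro j hj
        by_contra hcon
        simp only [mem_union, mem_iUnion, not_or, not_exists, mem_setOf_eq, not_and,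
          Finset.mem_coe] at hcon
        obtain ⟨hjM, hcon⟩ := hcon
        have hins : insert j M ∈
            {M : Set ι | M ⊆ S ∧ M.Pairwise (fun i j => Disjoint (B i) (B j))} := by
          refine ⟨insert_subset hj hM.prop.1, ?_⟩
          refine hM.prop.2.insert_of_symm ?_
          intro i hi _
          rw [Finset.disjoint_left]
          intro a haj hai
          exact hcon i hi a hai hj haj
        exact hjM (hM.le_of_ge hins (subset_insert _ _) (mem_insert _ _))
      · intro i hi j hj hij
        simpa using hM.prop.2 hi hj hij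

/-- The Delta-system lemma for an uncountable indexed family of finite sets. -/
theorem delta_system {ι α : Type*} [DecidableEq α] {S : Set ι} (hS : ¬ S.Countable)
    (B : ι → Finset α) :
    ∃ S' ⊆ S, ¬ S'.Countable ∧ ∃ R : Finset α, (∀ i ∈ S', R ⊆ B i) ∧
      S'.Pairwise (fun i j => Disjoint (B i \ R) (B j \ R)) := by
  obtain ⟨n, hn⟩ := exists_uncountable_fiber hS (fun (n : ℕ) i => (B i).card = n)
    (fun i _ => ⟨_, rfl⟩)
  obtain ⟨S', h1, h2, h3⟩ := delta_system_card n _ hn B (fun i hi => hi.2)
  exact ⟨S', fun i hi => (h1 hi).1, h2, h3⟩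

/-- The first uncountable ordinal as a type. -/
abbrev Om : Type := (Cardinal.ord (Cardinal.aleph 1)).ToType

theorem Om.countable_Iio (a : Om) : (Iio a).Countable := by
  rw [Cardinal.countable_iff_lt_aleph_one]
  exact Cardinal.mk_Iio_toType_ord_lt a

theorem Om.countable_Iic (a : Om) : (Iic a).Countable := by
  rw [← Iio_insert]
  exact (Om.countable_Iio a).insert a

theorem Om.mk : Cardinal.mk Om = Cardinal.aleph 1 := Cardinal.mk_ord_toType _

theorem Om.uncountable_univ : ¬ (univ : Set Om).Countable := by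
  rw [Cardinal.countable_iff_lt_aleph_one, Cardinal.mk_univ, Om.mk]
  exact lt_irrefl _

instance : Infinite Om := by
  rw [Cardinal.infinite_iff, Om.mk]
  exact Cardinal.aleph0_le_aleph 1

/-- Dependent choice of length omega one. -/
theorem exists_omega_seq {S : Type*} (R : Om → Set S → S → Prop)
    (h : ∀ a (D : Set S), D.Countable → ∃ s, R a D s) :
    ∃ g : Om → S, ∀ a, R a (g '' Iio a) (g a) := by
  classical
  have hc : ∀ (a : Om) (prev : ∀ b, b < a → S),
      (range fun b : Iio a => prev b.1 b.2).Countable := by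
    intro a prev
    have := (Om.countable_Iio a).to_subtype
    exact countable_range _
  let G : ∀ a : Om, (∀ b, b < a → S) → S := fun a prev =>
    Classical.choose (h a _ (hc a prev))
  let g : Om → S := (wellFounded_lt (α := Om)).fix G
  refine ⟨g, fun a => ?_⟩
  have e : g a = G a (fun b _ => g b) := (wellFounded_lt (α := Om)).fix_eq G a
  have e2 : g '' Iio a = range fun b : Iio a => g b.1 := by
    rw [image_eq_range]
  rw [e2, e]
  exact Classical.choose_spec (h a _ (hc a fun b _ => g b))

/-- Given omega one many requirements, each of which can be met by a countable set avoiding any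
prescribed countable set, some uncountable subset of `T` avoids a witness of each requirement. -/
theorem exists_uncountable_avoiding {W : Type*} {T : Set W} (hT : ¬ T.Countable)
    (P : Om → Set W → Prop)
    (h : ∀ a (C : Set W), C.Countable → ∃ F : Set W, F.Countable ∧ Disjoint F C ∧ P a F) :
    ∃ A ⊆ T, ¬ A.Countable ∧ ∀ a, ∃ F, P a F ∧ Disjoint F A := by
  classical
  obtain ⟨g, hg⟩ := exists_omega_seq (S := {p : W × Set W // p.2.Countable})
    (fun a D s => s.1.1 ∈ T ∧ s.1.1 ∉ s.1.2 ∧ P a s.1.2 ∧
      ∀ d ∈ D, s.1.1 ≠ d.1.1 ∧ s.1.1 ∉ d.1.2 ∧ d.1.1 ∉ s.1.2) (by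
      intro a D hD
      have hC : (⋃ d ∈ D, insert d.1.1 d.1.2).Countable :=
        hD.biUnion fun d _ => d.2.insert _
      obtain ⟨b, hbT, hb⟩ : ∃ b ∈ T, b ∉ ⋃ d ∈ D, insert d.1.1 d.1.2 := by
        by_contra hcon
        push Not at hcon
        exact hT (hC.mono hcon)
      obtain ⟨F, hF, hdis, hP⟩ := h a _ (hC.insert b)
      rw [disjoint_left] at hdis
      refine ⟨⟨(b, F), hF⟩, hbT, fun hbF => hdis hbF (mem_insert _ _), hP, ?_⟩
      intro d hd
      have hsub : insert d.1.1 d.1.2 ⊆ ⋃ d ∈ D, insert d.1.1 d.1.2 :=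
        subset_biUnion_of_mem (u := fun d : {p : W × Set W // p.2.Countable} =>
          insert d.1.1 d.1.2) hd
      refine ⟨?_, ?_, ?_⟩
      · intro e
        exact hb (hsub (by rw [← e]; exact mem_insert _ _))
      · intro e
        exact hb (hsub (mem_insert_of_mem _ e))
      · intro e
        exact hdis e (mem_insert_of_mem _ (hsub (mem_insert _ _))))
  refine ⟨range fun a => (g a).1.1, ?_, ?_, ?_⟩
  · rintro _ ⟨a, rfl⟩
    exact (hg a).1
  · intro hc
    apply Om.uncountable_univ
    have hinj : Function.Injective fun a => (g a).1.1 := by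
      intro a b hab
      by_contra hne
      rcases lt_or_gt_of_ne hne with hlt | hlt
      · exact ((hg b).2.2.2 (g a) ⟨a, hlt, rfl⟩).1 hab.symm
      · exact ((hg a).2.2.2 (g b) ⟨b, hlt, rfl⟩).1 hab
    rw [← image_univ] at hc
    exact countable_of_injective_of_countable_image hinj.injOn hc
  · intro a
    refine ⟨(g a).1.2, (hg a).2.2.1, ?_⟩
    rw [disjoint_left]
    rintro _ hx ⟨b, rfl⟩
    rcases lt_trichotomy a b with hlt | rfl | hlt
    · exact ((hg b).2.2.2 (g a) ⟨a, hlt, rfl⟩).2.1 hx
    · exact (hg a).2.1 hx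
    · exact ((hg a).2.2.2 (g b) ⟨b, hlt, rfl⟩).2.2 hx

/-- A type of size at most aleph one is a quotient of `Om`. -/
theorem exists_surj_finset :
    ∀ (J : Type) [Countable J] [Nonempty J], ∃ s : Om → J × Finset (Om × ℕ),
      Function.Surjective s := by
  intro J _ _
  have h1 : Cardinal.mk (J × Finset (Om × ℕ)) ≤ Cardinal.mk Om := by
    have hJ : Cardinal.mk J ≤ Cardinal.aleph 1 :=
      (Cardinal.mk_le_aleph0).trans (Cardinal.aleph0_le_aleph 1)
    simp only [Cardinal.mk_prod, Cardinal.lift_id, Cardinal.mk_finset_of_infinite, Om.mk,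
      Cardinal.mk_nat]
    have e : Cardinal.aleph 1 * Cardinal.aleph0 = Cardinal.aleph.{0} 1 :=
      Cardinal.mul_eq_left (Cardinal.aleph0_le_aleph 1) (Cardinal.aleph0_le_aleph 1)
        Cardinal.aleph0_ne_zero
    rw [e]
    calc Cardinal.mk J * Cardinal.aleph 1 ≤ Cardinal.aleph 1 * Cardinal.aleph 1 := by gcongr
      _ = Cardinal.aleph 1 := Cardinal.mul_eq_self (Cardinal.aleph0_le_aleph 1)
  obtain ⟨e⟩ := (Cardinal.le_def _ _).1 h1
  exact ⟨Function.invFun e, Function.invFun_surjective e.injective⟩

end Pool.Agent.MP_160dec_gt
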