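import Pool.Agent.MP_160dec_gt.Core

/-! t-extral spaces are compact; the main theorem. -/

namespace Pool.Agent.MP_160dec_gt

open Set Topology Filter

universe u

/-- A continuous real function on the one-point compactification of a discrete space agrees with
its value at infinity off a countable set. -/
theorem countable_ne_infty {K : Type*} [TopologicalSpace K] [DiscreteTopology K]
    {g : OnePoint K → ℝ} (hg : Continuous g) :
    {k : K | g (k : OnePoint K) ≠ g OnePoint.infty}.Countable := by
  rw [OnePoint.continuous_iff_from_discrete] at hg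
  have h1 : ∀ n : ℕ, {k : K | 1 / ((n : ℝ) + 1) ≤ dist (g (k : OnePoint K)) (g OnePoint.infty)}.Finite := by
    intro n
    have := Metric.tendsto_nhds.1 hg _ (Nat.one_div_pos_of_nat (n := n))
    refine (eventually_cofinite.1 this).subset fun k hk => ?_
    simpa using hk
  refine (countable_iUnion fun n => (h1 n).countable).mono fun k hk => ?_
  obtain ⟨n, hn⟩ := exists_nat_one_div_lt (dist_pos.2 hk)
  exact mem_iUnion.2 ⟨n, hn.le⟩

theorem compactSpace_of_tExtral {X : Type u} [TopologicalSpace X] [T35Space X]
    (h : TExtral X) : CompactSpace X := by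
  classical
  let K : Type u := Set (Cp X × X × ℕ)
  letI : TopologicalSpace K := ⊥
  haveI : DiscreteTopology K := ⟨rfl⟩
  let u : X → StoneCech X := stoneCechUnit
  have hu : IsEmbedding u := isEmbedding_stoneCechUnit
  have hud : DenseRange u := denseRange_stoneCechUnit
  let Y : Type u := {p : StoneCech X × OnePoint K // p.2 = OnePoint.infty → p.1 ∈ range u}
  let e : X → Y := fun x => ⟨(u x, OnePoint.infty), fun _ => mem_range_self x⟩
  have hec : Continuous e := (hu.continuous.prodMk continuous_const).subtype_mk _
  have he : IsClosedEmbedding e := by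
    refine ⟨IsEmbedding.of_comp hec (continuous_fst.comp continuous_subtype_val) hu, ?_⟩
    have : range e = (fun p : Y => p.1.2) ⁻¹' {OnePoint.infty} := by
      ext p
      constructor
      · rintro ⟨x, rfl⟩
        rfl
      · intro hp
        obtain ⟨x, hx⟩ := p.2 hp
        refine ⟨x, Subtype.ext (Prod.ext hx ?_)⟩
        exact (mem_singleton_iff.1 hp).symm
    rw [this]
    exact OnePoint.isClosed_infty.preimage (continuous_snd.comp continuous_subtype_val)
  obtain ⟨φ, hφ, hφe⟩ := h Y e he
  let col : X → OnePoint K → Y := fun x k => ⟨(u x, k), fun _ => mem_range_self x⟩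
  have hcol : ∀ x, Continuous (col x) := fun x =>
    (continuous_const.prodMk continuous_id).subtype_mk _
  have hbad : ∀ (f : Cp X) (x : X), ∃ s : ℕ → K,
      ∀ k : K, (φ f).1 (col x k) ≠ f.1 x → k ∈ range s := by
    intro f x
    have h1 := countable_ne_infty ((φ f).2.comp (hcol x))
    obtain ⟨s, hs⟩ := (h1.insert (∅ : Set (Cp X × X × ℕ))).exists_eq_range (insert_nonempty _ _)
    refine ⟨s, fun k hk => ?_⟩
    rw [← hs]
    refine mem_insert_of_mem _ ?_
    change (φ f).1 (col x k) ≠ (φ f).1 (e x)
    rwa [hφe]
  choose s hs using hbad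
  obtain ⟨k, hk⟩ : ∃ k : K, ∀ w : Cp X × X × ℕ, s w.1 w.2.1 w.2.2 ≠ k := by
    by_contra hcon
    push Not at hcon
    exact Function.cantor_surjective (fun w : Cp X × X × ℕ => s w.1 w.2.1 w.2.2) hcon
  have hgood : ∀ (f : Cp X) (x : X), (φ f).1 (col x k) = f.1 x := by
    intro f x
    by_contra hne
    obtain ⟨n, hn⟩ := hs f x k hne
    exact hk (f, x, n) hn
  let row : StoneCech X → Y := fun z => ⟨(z, (k : OnePoint K)),
    fun h => absurd h (OnePoint.coe_ne_infty k)⟩
  have hrow : Continuous row := (continuous_id.prodMk continuous_const).subtype_mk _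
  have hext : ∀ (f : Cp X) (H : StoneCech X → ℝ), Continuous H → (∀ x, f.1 x = H (u x)) →
      ∀ z, (φ f).1 (row z) = H z := by
    intro f H hH hf z
    refine congrFun (hud.equalizer ((φ f).2.comp hrow) hH ?_) z
    funext x
    exact (hgood f x).trans (hf x)
  have hsurj : Function.Surjective u := by
    intro z
    by_contra hz
    let zero : Cp X := ⟨fun _ => 0, continuous_const⟩
    have h0 : (φ zero).1 (row z) = 0 := hext zero (fun _ => 0) continuous_const (fun _ => rfl) z
    obtain ⟨B, δ, hδ, hB⟩ := cp_nhds (f := zero) (W := {f | (φ f).1 (row z) < 1})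
      ((isOpen_lt ((continuous_eval_cp (row z)).comp hφ) continuous_const).mem_nhds (by
        change (φ zero).1 (row z) < 1
        rw [h0]; exact one_pos))
    obtain ⟨H, hH⟩ := interp (X := StoneCech X) ((B.finite_toSet.image u).insert z)
      (fun w => if w = z then (1 : ℝ) else 0)
    let f : Cp X := ⟨fun x => H.1 (u x), H.2.comp hu.continuous⟩
    have h1 : (φ f).1 (row z) = 1 := by
      rw [hext f H.1 H.2 (fun _ => rfl) z, hH z (mem_insert _ _), if_pos rfl]
    have h2 : (φ f).1 (row z) < 1 := by
      refine hB f fun x hx => ?_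
      have : f.1 x = 0 := by
        change H.1 (u x) = 0
        rw [hH (u x) (mem_insert_of_mem _ ⟨x, hx, rfl⟩), if_neg fun h => hz ⟨x, h⟩]
      rw [this]
      simpa [zero] using hδ
    exact h2.ne h1
  constructor
  rw [hu.isCompact_iff, image_univ, hsurj.range_eq]
  exact isCompact_univ

theorem metrizable_of_tExtral_tExtendial (X : Type u) [TopologicalSpace X] [T35Space X]
    (h₁ : TExtral X) (h₂ : TExtendial X) : TopologicalSpace.MetrizableSpace X := by
  haveI := compactSpace_of_tExtral h₁
  let e : X → Cp X → ℝ := fun x f => f.1 x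
  have hec : Continuous e := continuous_pi fun f => f.2
  have hei : Function.Injective e := by
    intro x y hxy
    by_contra hne
    obtain ⟨f, hf, hf'⟩ := separatesPoints_continuous_of_t35Space hne
    exact hf' (congrFun hxy ⟨f, hf⟩)
  have he : IsTEmbedded e := h₁ (Cp X → ℝ) e (hec.isClosedEmbedding hei)
  exact metrizable_of_cTight hec he (cTight_of_hereditary he h₂)

end Pool.Agent.MP_160dec_gt
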